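import Pool.Agent.Helper44.Tri.Grown

/-! # Cycles with two adjacent vertices of degree two -/

set_option autoImplicit false
open Classical SimpleGraph

namespace Pool.Agent.Helper44.Tri

variable {V : Type}

theorem nbr_of_deg_two {G : SimpleGraph V} {a p q : V} (ha : (G.neighborSet a).encard = 2)
    (hp : G.Adj a p) (hq : G.Adj a q) (hpq : p ≠ q) : ∀ x, G.Adj a x → x = p ∨ x = q := by
  obtain ⟨y, z, hyz, he⟩ := Set.encard_eq_two.1 ha
  have hm : ∀ x, G.Adj a x ↔ x = y ∨ x = z := by
    intro x
    have : x ∈ G.neighborSet a ↔ x ∈ ({y, z} : Set V) := by rw [he]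
    exact this
  intro x hx
  rcases (hm p).1 hp with h1 | h1 <;> rcases (hm q).1 hq with h2 | h2 <;>
    rcases (hm x).1 hx with h3 | h3
  · exact absurd (h1.trans h2.symm) hpq
  · exact absurd (h1.trans h2.symm) hpq
  · exact Or.inl (h3.trans h1.symm)
  · exact Or.inr (h3.trans h2.symm)
  · exact Or.inr (h3.trans h2.symm)
  · exact Or.inl (h3.trans h1.symm)
  · exact absurd (h1.trans h2.symm) hpq
  · exact absurd (h1.trans h2.symm) hpq

/-- the cycle `w`, rotated and reversed -/
theorem exists_cycle_from {G H : SimpleGraph V} (hHG : ∀ x y, H.Adj x y → G.Adj x y) {u : V}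
    (w : H.Walk u u) (hw : w.IsCycle) {a b : V} (ha : a ∈ w.support) (hab : G.Adj a b)
    (da : (G.neighborSet a).encard = 2) : ∃ w2 : H.Walk a a, w2.IsCycle ∧ w2.length = w.length ∧
      (∀ x, x ∈ w2.support ↔ x ∈ w.support) ∧ (∀ e, e ∈ w2.edges ↔ e ∈ w.edges) ∧
      w2.getVert (w.length - 1) = b := by
  have hw1 : (w.rotate a ha).IsCycle := hw.rotate ha
  have hlen : (w.rotate a ha).length = w.length := Walk.length_rotate w a ha
  have hn : 3 ≤ w.length := hw.three_le_length
  have hsup : ∀ x, x ∈ (w.rotate a ha).support ↔ x ∈ w.support := fun x =>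
    Walk.mem_support_rotate_iff w a ha
  have hedg : ∀ e, e ∈ (w.rotate a ha).edges ↔ e ∈ w.edges := fun e =>
    (Walk.rotate_edges w a ha).mem_iff
  have h1 : H.Adj a ((w.rotate a ha).getVert 1) := by
    have := Walk.adj_getVert_succ (w.rotate a ha) (i := 0) (by omega)
    rwa [Walk.getVert_zero] at this
  have h2 : H.Adj ((w.rotate a ha).getVert (w.length - 1)) a := by
    have := Walk.adj_getVert_succ (w.rotate a ha) (i := w.length - 1) (by omega)
    have he : w.length - 1 + 1 = (w.rotate a ha).length := by omega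
    rwa [he, Walk.getVert_length] at this
  have hne : (w.rotate a ha).getVert 1 ≠ (w.rotate a ha).getVert (w.length - 1) := by
    intro h
    have := hw1.getVert_injOn' (show 1 ≤ (w.rotate a ha).length - 1 by omega)
      (show w.length - 1 ≤ (w.rotate a ha).length - 1 by omega) h
    omega
  rcases nbr_of_deg_two da (hHG _ _ h1) (hHG _ _ h2.symm) hne b hab with h | h
  · refine ⟨(w.rotate a ha).reverse, hw1.reverse, ?_, ?_, ?_, ?_⟩
    · rw [Walk.length_reverse, hlen]
    · intro x
      rw [Walk.support_reverse, List.mem_reverse]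
      exact hsup x
    · intro e
      rw [Walk.edges_reverse, List.mem_reverse]
      exact hedg e
    · rw [Walk.getVert_reverse, hlen]
      have he : w.length - (w.length - 1) = 1 := by omega
      rw [he]
      exact h.symm
  · exact ⟨w.rotate a ha, hw1, hlen, hsup, hedg, h.symm⟩

/-- the data of an odd cycle with two adjacent vertices of degree two -/
theorem cycle_data {G H : SimpleGraph V} (hHG : ∀ x y, H.Adj x y → G.Adj x y) {u : V}
    (w : H.Walk u u) (hw : w.IsCycle) (hodd : Odd w.length) {a b : V} (ha : a ∈ w.support)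
    (hab : G.Adj a b) (da : (G.neighborSet a).encard = 2)
    (db : (G.neighborSet b).encard = 2) : ∃ (j : ℕ) (v : ℕ → V),
      (∀ k, k ≤ 2 * j + 1 → H.Adj (v k) (v (k + 1))) ∧ H.Adj (v (2 * j + 2)) (v 0) ∧
      (∀ k l, k ≤ 2 * j + 2 → l ≤ 2 * j + 2 → v k = v l → k = l) ∧
      (∀ x, x ∈ w.support ↔ ∃ k, k ≤ 2 * j + 2 ∧ x = v k) ∧
      (∀ x, G.Adj (v 0) x → x = v 1 ∨ x = v (2 * j + 2)) ∧
      (∀ x, G.Adj (v (2 * j + 2)) x → x = v (2 * j + 1) ∨ x = v 0) ∧
      (∀ k l, k < l → l ≤ 2 * j + 2 → s(v k, v l) ∈ w.edges →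
        l = k + 1 ∨ (k = 0 ∧ l = 2 * j + 2)) := by
  obtain ⟨w2, hw2, hlen, hsup, hedg, hb⟩ := exists_cycle_from hHG w hw ha hab da
  have hn : 3 ≤ w.length := hw.three_le_length
  obtain ⟨m, hm⟩ := hodd
  obtain ⟨j, hj⟩ : ∃ j, m = j + 1 := ⟨m - 1, by omega⟩
  have hlj : w.length = 2 * j + 3 := by omega
  rw [hlj] at hb
  have hlj2 : w2.length = 2 * j + 3 := by omega
  have hb' : w2.getVert (2 * j + 2) = b := hb
  have hadj : ∀ k, k ≤ 2 * j + 2 → H.Adj (w2.getVert k) (w2.getVert (k + 1)) := fun k hk =>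
    Walk.adj_getVert_succ w2 (by omega)
  have h0 : w2.getVert 0 = a := Walk.getVert_zero w2
  have hlast : w2.getVert (2 * j + 3) = a := by
    rw [← hlj2]; exact Walk.getVert_length w2
  have hinj : ∀ k l, k ≤ 2 * j + 2 → l ≤ 2 * j + 2 → w2.getVert k = w2.getVert l → k = l := by
    intro k l hk hl h
    exact hw2.getVert_injOn' (show k ≤ w2.length - 1 by omega) (show l ≤ w2.length - 1 by omega) h
  have hback : H.Adj (w2.getVert (2 * j + 2)) (w2.getVert 0) := by
    have := hadj (2 * j + 2) le_rfl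
    rw [show 2 * j + 2 + 1 = 2 * j + 3 by omega, hlast] at this
    rw [h0]
    exact this
  refine ⟨j, w2.getVert, fun k hk => hadj k (by omega), hback, hinj, ?_, ?_, ?_, ?_⟩
  · intro x
    rw [← hsup x, Walk.mem_support_iff_exists_getVert]
    constructor
    · rintro ⟨k, hk, hkl⟩
      by_cases h : k = 2 * j + 3
      · exact ⟨0, by omega, by rw [← hk, h, hlast, h0]⟩
      · exact ⟨k, by omega, hk.symm⟩
    · rintro ⟨k, hk, hkl⟩
      exact ⟨k, hkl.symm, by omega⟩
  · intro x hx
    have h1 : G.Adj a (w2.getVert 1) := by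
      have := hHG _ _ (hadj 0 (by omega))
      rwa [h0] at this
    have h2 : G.Adj a (w2.getVert (2 * j + 2)) := by
      have := hHG _ _ hback.symm
      rwa [h0] at this
    rw [h0] at hx
    exact nbr_of_deg_two da h1 h2 (fun h => by have := hinj 1 _ (by omega) le_rfl h; omega) x hx
  · intro x hx
    have h1 : G.Adj b (w2.getVert (2 * j + 1)) := by
      have := hHG _ _ (hadj (2 * j + 1) (by omega)).symm
      rwa [show 2 * j + 1 + 1 = 2 * j + 2 by omega, hb'] at this
    have h2 : G.Adj b (w2.getVert 0) := by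
      have := hHG _ _ hback
      rwa [hb'] at this
    rw [hb'] at hx
    exact nbr_of_deg_two db h1 h2 (fun h => by have := hinj _ 0 (by omega) (by omega) h; omega) x hx
  · intro k l hkl hl he
    rw [← hedg, Walk.mk_mem_edges_iff_exists] at he
    obtain ⟨i, hi, he⟩ := he
    rw [Sym2.eq_iff] at he
    by_cases h : i = 2 * j + 2
    · rw [h, show 2 * j + 2 + 1 = 2 * j + 3 by omega, hlast.trans h0.symm] at he
      rcases he with ⟨e1, e2⟩ | ⟨e1, e2⟩
      · have := hinj 0 l (by omega) hl e2
        omega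
      · have h3 := hinj _ l le_rfl hl e1
        have h4 := hinj 0 k (by omega) (by omega) e2
        right
        exact ⟨h4.symm, h3.symm⟩
    · rcases he with ⟨e1, e2⟩ | ⟨e1, e2⟩
      · have h3 := hinj _ k (by omega) (by omega) e1
        have h4 := hinj _ l (by omega) hl e2
        left
        omega
      · have h3 := hinj _ l (by omega) hl e1
        have h4 := hinj _ k (by omega) (by omega) e2
        omega

/-- an edge between two vertices of the only cycle of a component is an edge of the cycle -/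
theorem chord {H : SimpleGraph V} {u : V} (w : H.Walk u u) (hw : w.IsCycle)
    (huniq : ∀ u' (w' : H.Walk u' u'), w'.IsCycle → H.Reachable u' u →
      ∀ e ∈ w'.edges, e ∈ w.edges) {x y : V} (hx : x ∈ w.support)
    (hy : y ∈ w.support) (hxy : H.Adj x y) : s(x, y) ∈ w.edges := by
  by_contra hno
  have hy1 : y ∈ (w.rotate x hx).support := (Walk.mem_support_rotate_iff w x hx).2 hy
  have hp : ((w.rotate x hx).takeUntil y hy1).IsPath := (hw.rotate hx).isPath_takeUntil hy1
  have hpe : s(x, y) ∉ ((w.rotate x hx).takeUntil y hy1).edges := by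
    intro h
    exact hno ((Walk.rotate_edges w x hx).mem_iff.1
      (Walk.edges_takeUntil_subset_edges (w.rotate x hx) hy1 h))
  have hc : (Walk.cons hxy.symm ((w.rotate x hx).takeUntil y hy1)).IsCycle := by
    rw [Walk.cons_isCycle_iff]
    refine ⟨hp, ?_⟩
    rw [Sym2.eq_swap]
    exact hpe
  have hr : H.Reachable y u := (w.takeUntil y hy).reachable.symm
  have h3 := huniq y _ hc hr s(y, x) (by rw [Walk.edges_cons]; exact List.mem_cons_self)
  rw [Sym2.eq_swap] at h3
  exact hno h3

/-- walking along a cycle -/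
theorem walk_in_cycle {H : SimpleGraph V} {u : V} (w : H.Walk u u) {x y : V} (hx : x ∈ w.support)
    (hy : y ∈ w.support) : ∃ p : H.Walk x y, ∀ v ∈ p.support, v ∈ w.support := by
  have hy1 : y ∈ (w.rotate x hx).support := (Walk.mem_support_rotate_iff w x hx).2 hy
  refine ⟨(w.rotate x hx).takeUntil y hy1, fun v hv => ?_⟩
  exact (Walk.mem_support_rotate_iff w x hx).1
    (Walk.support_takeUntil_subset_support (w.rotate x hx) hy1 hv)

end Pool.Agent.Helper44.Tri
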