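import Pool.Agent.Helper44.Rsl.ForestRank
import Pool.Agent.Helper44.Rsl.PeelF

/-! # Degree sums, extremal sets and greedy embeddings of forests -/

set_option autoImplicit false
open Classical Finset

namespace Pool.Agent.Helper44.Tri
open Pool.Agent.Helper44.Rsl (dp dp_le)
open Pool.Agent.Helper30.TwoTree (turan_bound)

variable {X : Type} [Fintype X]

/-- the degree of `u` into `Z` -/
noncomputable def dg (Γ : SimpleGraph X) (Z : Finset X) (u : X) : ℕ :=
  (Z.filter (fun w => Γ.Adj u w)).card

/-- the sum of the degrees in the subgraph induced on `Z` -/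
noncomputable def e2 (Γ : SimpleGraph X) (Z : Finset X) : ℝ := ∑ u ∈ Z, (dg Γ Z u : ℝ)

theorem e2_nonneg (Γ : SimpleGraph X) (Z : Finset X) : 0 ≤ e2 Γ Z :=
  Finset.sum_nonneg (fun _ _ => Nat.cast_nonneg _)

theorem e2_eq_dp (Γ : SimpleGraph X) (Z : Finset X) : e2 Γ Z = (dp Γ Z).card := by
  unfold e2 dp dg
  rw [Finset.card_filter, Finset.sum_product]
  push_cast
  refine Finset.sum_congr rfl (fun u _ => ?_)
  rw [Finset.card_filter]
  push_cast
  rfl

theorem e2_le_erase (Γ : SimpleGraph X) (Z : Finset X) (x : X) :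
    e2 Γ Z ≤ e2 Γ (Z.erase x) + 2 * dg Γ Z x := by
  have h1 := Pool.Agent.Helper44.Rsl.dp_erase Γ Z x
  rw [e2_eq_dp, e2_eq_dp]
  unfold dg
  exact_mod_cast h1

/-- `Z` has the largest average degree among its nonempty subsets -/
theorem le_deg_of_max (Γ : SimpleGraph X) (Z : Finset X) (D : ℝ) (hD : e2 Γ Z = D * Z.card)
    (hmax : ∀ Z' ⊆ Z, e2 Γ Z' ≤ D * Z'.card) (x : X) (hx : x ∈ Z) : D ≤ 2 * dg Γ Z x := by
  have h1 := e2_le_erase Γ Z x
  have h2 := hmax (Z.erase x) (Finset.erase_subset _ _)
  have h3 : ((Z.erase x).card : ℝ) + 1 = Z.card := by exact_mod_cast Finset.card_erase_add_one hx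
  rw [hD] at h1
  nlinarith

/-- a member of a family with the largest average degree -/
theorem exists_max (Γ : SimpleGraph X) (F : Finset (Finset X)) (hF : F.Nonempty)
    (hne : ∀ Z ∈ F, Z.Nonempty) : ∃ Z ∈ F, ∃ D : ℝ, 0 ≤ D ∧ e2 Γ Z = D * Z.card ∧
      ∀ Z' ∈ F, e2 Γ Z' ≤ D * Z'.card := by
  obtain ⟨Z, hZ, hmax⟩ := F.exists_max_image (fun Z => e2 Γ Z / Z.card) hF
  have hpos : ∀ Z' ∈ F, (0:ℝ) < Z'.card := fun Z' h => by exact_mod_cast Finset.card_pos.2 (hne Z' h)
  refine ⟨Z, hZ, e2 Γ Z / Z.card, div_nonneg (e2_nonneg _ _) (hpos Z hZ).le, ?_, ?_⟩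
  · rw [div_mul_cancel₀ _ (hpos Z hZ).ne']
  · intro Z' hZ'
    have h1 := hmax Z' hZ'
    rw [div_le_iff₀ (hpos Z' hZ')] at h1
    exact h1

/-- a large set without large independent sets contains a set with large degrees -/
theorem exists_core (Γ : SimpleGraph X) (Z : Finset X) (s i : ℕ)
    (hi : ∀ I ⊆ Z, (∀ a ∈ I, ∀ b ∈ I, ¬ Γ.Adj a b) → I.card < i)
    (hZ : (2 * s + 1) * i < Z.card) :
    ∃ W ⊆ Z, W.Nonempty ∧ ∀ w ∈ W, s ≤ dg Γ W w := by
  by_contra hno
  have h1 := dp_le s Γ Z.card Z le_rfl hno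
  have h2 := turan_bound Γ Z i hi
  have h3 : (∑ u ∈ Z, ((Z.filter (fun w => Γ.Adj u w)).card : ℝ)) = (dp Γ Z).card := e2_eq_dp Γ Z
  rw [h3] at h2
  have h4 : ((dp Γ Z).card : ℝ) ≤ 2 * s * Z.card := by exact_mod_cast h1
  have h5 : ((2 * s + 1) * i : ℝ) < Z.card := by exact_mod_cast hZ
  have h6 : (0:ℝ) ≤ i := Nat.cast_nonneg i
  have h7 : (0:ℝ) < Z.card := lt_of_le_of_lt (by positivity) h5
  have h8 : (i : ℝ) * ((dp Γ Z).card + Z.card) ≤ i * (2 * s * Z.card + Z.card) :=
    mul_le_mul_of_nonneg_left (by linarith) h6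
  have h9 : (Z.card : ℝ) * ((2 * s + 1) * i) < Z.card * Z.card := mul_lt_mul_of_pos_left h5 h7
  nlinarith

variable {ι : Type}

/-- Greedy embedding of a forest. -/
theorem greedy (Γ : SimpleGraph X) (U : Finset X) (A : X → Finset ι) (m n : ℕ) (hU : U.Nonempty)
    (hm : ∀ u ∈ U, (A u).card ≤ m)
    (hrich : ∀ u ∈ U, ∀ Z : Finset ι, Z.card ≤ n → ∃ u' ∈ U, Γ.Adj u u' ∧ Disjoint (A u') Z)
    {W : Type} [Fintype W] (H : SimpleGraph W) (hH : H.IsAcyclic) (hn : Fintype.card W * m ≤ n) :
    ∃ g : W → X, (∀ w, g w ∈ U) ∧ (∀ w w', H.Adj w w' → Γ.Adj (g w) (g w')) ∧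
      ∀ w w', w ≠ w' → Disjoint (A (g w)) (A (g w')) := by
  obtain ⟨ρ, root, hinj, _, _, hroot, hpar, _⟩ := Pool.Agent.Helper44.Rsl.forest_rank H hH
  obtain ⟨u0, hu0⟩ := hU
  have key : ∀ k : ℕ, ∃ g : W → X, (∀ w, g w ∈ U) ∧
      (∀ w w', ρ w < k → ρ w' < k → H.Adj w w' → Γ.Adj (g w) (g w')) ∧
      ∀ w w', ρ w < k → ρ w' < k → w ≠ w' → Disjoint (A (g w)) (A (g w')) := by
    intro k
    induction k with
    | zero =>
      exact ⟨fun _ => u0, fun _ => hu0, fun _ _ h => absurd h (Nat.not_lt_zero _),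
        fun _ _ h => absurd h (Nat.not_lt_zero _)⟩
    | succ k ih =>
      obtain ⟨g, g1, g2, g3⟩ := ih
      by_cases hk : ∃ w0, ρ w0 = k
      · obtain ⟨w0, hw0⟩ := hk
        set Z : Finset ι := univ.biUnion (fun w => A (g w)) with hZ
        have hZc : Z.card ≤ n := by
          refine (Finset.card_biUnion_le_card_mul _ _ m (fun w _ => hm _ (g1 w))).trans ?_
          exact hn
        have hex : ∃ u' ∈ U, Disjoint (A u') Z ∧ ∀ w, ρ w < k → H.Adj w w0 → Γ.Adj (g w) u' := by
          by_cases hr : w0 = root w0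
          · obtain ⟨u', hu', _, hd⟩ := hrich u0 hu0 Z hZc
            refine ⟨u', hu', hd, ?_⟩
            intro w hw hadj
            have := hroot w0 hr w hadj.symm
            omega
          · obtain ⟨u, hu, hul, huu⟩ := hpar w0 hr
            obtain ⟨u', hu', hadj', hd⟩ := hrich (g u) (g1 u) Z hZc
            refine ⟨u', hu', hd, ?_⟩
            intro w hw hadj
            have := huu w hadj.symm (by omega)
            rw [this]
            exact hadj'
        obtain ⟨u', hu', hd, hadj'⟩ := hex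
        have hne : ∀ w, ρ w < k → w ≠ w0 := by
          intro w hw h
          rw [h] at hw
          omega
        have hcase : ∀ w, ρ w < k + 1 → ρ w < k ∨ w = w0 := by
          intro w hw
          by_cases h : ρ w < k
          · exact Or.inl h
          · exact Or.inr (hinj (by omega))
        have hdis : ∀ w, Disjoint (A u') (A (g w)) := fun w =>
          hd.mono_right (Finset.subset_biUnion_of_mem (fun w => A (g w)) (Finset.mem_univ w))
        refine ⟨Function.update g w0 u', ?_, ?_, ?_⟩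
        · intro w
          by_cases h : w = w0
          · rw [h, Function.update_self]; exact hu'
          · rw [Function.update_of_ne h]; exact g1 w
        · intro w w' hw hw' hadj
          rcases hcase w hw with h | h <;> rcases hcase w' hw' with h' | h'
          · rw [Function.update_of_ne (hne w h), Function.update_of_ne (hne w' h')]
            exact g2 w w' h h' hadj
          · rw [Function.update_of_ne (hne w h), h', Function.update_self]
            exact hadj' w h (h' ▸ hadj)
          · rw [Function.update_of_ne (hne w' h'), h, Function.update_self]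
            exact (hadj' w' h' (h ▸ hadj.symm)).symm
          · rw [h, h'] at hadj
            exact absurd hadj (H.loopless.irrefl _)
        · intro w w' hw hw' hww
          rcases hcase w hw with h | h <;> rcases hcase w' hw' with h' | h'
          · rw [Function.update_of_ne (hne w h), Function.update_of_ne (hne w' h')]
            exact g3 w w' h h' hww
          · rw [Function.update_of_ne (hne w h), h', Function.update_self]
            exact (hdis w).symm
          · rw [Function.update_of_ne (hne w' h'), h, Function.update_self]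
            exact hdis w'
          · exact absurd (h.trans h'.symm) hww
      · refine ⟨g, g1, ?_, ?_⟩
        · intro w w' hw hw' hadj
          refine g2 w w' ?_ ?_ hadj
          · have : ρ w ≠ k := fun h => hk ⟨w, h⟩
            omega
          · have : ρ w' ≠ k := fun h => hk ⟨w', h⟩
            omega
        · intro w w' hw hw' hww
          refine g3 w w' ?_ ?_ hww
          · have : ρ w ≠ k := fun h => hk ⟨w, h⟩
            omega
          · have : ρ w' ≠ k := fun h => hk ⟨w', h⟩
            omega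
  obtain ⟨g, g1, g2, g3⟩ := key (univ.sup ρ + 1)
  have hlt : ∀ w, ρ w < univ.sup ρ + 1 := fun w =>
    Nat.lt_succ_of_le (Finset.le_sup (f := ρ) (Finset.mem_univ w))
  exact ⟨g, g1, fun w w' => g2 w w' (hlt w) (hlt w'), fun w w' => g3 w w' (hlt w) (hlt w')⟩

/-- embedding of a forest into a set with large degrees -/
theorem embed_core (Γ : SimpleGraph X) (U : Finset X) (s : ℕ) (hU : U.Nonempty)
    (hdeg : ∀ u ∈ U, s ≤ dg Γ U u) {W : Type} [Fintype W] (H : SimpleGraph W)
    (hH : H.IsAcyclic) (hs : Fintype.card W < s) :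
    ∃ g : W → X, Function.Injective g ∧ (∀ w, g w ∈ U) ∧
      ∀ w w', H.Adj w w' → Γ.Adj (g w) (g w') := by
  obtain ⟨g, g1, g2, g3⟩ := greedy Γ U (fun u => ({u} : Finset X)) 1 (Fintype.card W) hU
    (fun u _ => by simp) (by
      intro u hu Z hZ
      have h1 : ¬ U.filter (fun w => Γ.Adj u w) ⊆ Z := by
        intro hsub
        have h2 := Finset.card_le_card hsub
        have h3 := hdeg u hu
        unfold dg at h3
        omega
      obtain ⟨u', hu', hnot⟩ := Finset.not_subset.1 h1
      rw [Finset.mem_filter] at hu'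
      exact ⟨u', hu'.1, hu'.2, by simpa using hnot⟩) H hH (by omega)
  refine ⟨g, ?_, g1, g2⟩
  intro w w' h
  by_contra hne
  have := g3 w w' hne
  rw [h] at this
  simp at this

end Pool.Agent.Helper44.Tri
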