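import Pool.Agent.Helper44.Tri.Spider

/-! # The embedding of a flower -/

set_option autoImplicit false
open Classical Finset

namespace Pool.Agent.Helper44.Tri

variable {X : Type} [Fintype X]

/-- numerical part: the number of legs -/
theorem exists_t {i s : ℕ} {D τ : ℝ} (hi : (0:ℝ) < i) (hs : (1:ℝ) ≤ s) (hD : 0 < D) (hτD : τ ≤ D)
    (hτ : (512 * s ^ 3 * 2 ^ (s + s * s) : ℝ) ≤ τ + 1)
    (hbig : (1024 * s ^ 3 * 2 ^ (s + s * s) : ℝ) * i ≤ D) :
    ∃ t : ℕ, ((s + 1 + t * s : ℕ) : ℝ) ≤ τ / 2 ∧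
      ((2 * s + 1) * i * t + s * (2 ^ (s + s * s) * (i * (τ * s + 1))) : ℝ) <
        t * (D / 2 - (s + t * s : ℕ)) := by
  set p : ℝ := 2 ^ (s + s * s) with hp
  have hp1 : 1 ≤ p := pow_one_le s
  have hs2 : (1:ℝ) ≤ s ^ 2 := one_le_pow₀ hs
  have hs3 : (s:ℝ) ≤ s ^ 3 := by nlinarith
  have hsp : (s:ℝ) ^ 3 ≤ s ^ 3 * p := le_mul_of_one_le_right (by positivity) hp1
  have hτ1 : 512 * (s:ℝ) ≤ τ + 1 := by nlinarith
  have hτ0 : 511 ≤ τ := by linarith
  set θ : ℝ := s ^ 2 * p * (τ + 1) * i / D with hθ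
  have hθ0 : 0 < θ := by
    have : 0 < τ + 1 := by linarith
    positivity
  have hθD : θ * D = s ^ 2 * p * (τ + 1) * i := by
    rw [hθ, div_mul_cancel₀ _ hD.ne']
  have hθs : 1024 * (s * θ) ≤ τ + 1 := by
    have h1 : (1024 * (s * θ)) * D ≤ (τ + 1) * D := by
      have h2 : (1024 * (s * θ)) * D = (1024 * s ^ 3 * p * i) * (τ + 1) := by
        have : (1024 * (s * θ)) * D = 1024 * s * (θ * D) := by ring
        rw [this, hθD]; ring
      rw [h2]
      have h3 : 0 ≤ τ + 1 := by linarith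
      calc (1024 * s ^ 3 * p * i) * (τ + 1) ≤ D * (τ + 1) := mul_le_mul_of_nonneg_right hbig h3
        _ = (τ + 1) * D := by ring
    exact le_of_mul_le_mul_right h1 hD
  refine ⟨⌈8 * θ⌉₊, ?_, ?_⟩
  · have h1 : ((⌈8 * θ⌉₊ : ℕ) : ℝ) < 8 * θ + 1 := Nat.ceil_lt_add_one (by linarith)
    push_cast
    have h2 : (⌈8 * θ⌉₊ : ℝ) * s ≤ (8 * θ + 1) * s := mul_le_mul_of_nonneg_right h1.le (by linarith)
    nlinarith
  · set t : ℕ := ⌈8 * θ⌉₊ with ht
    have h1 : (t : ℝ) < 8 * θ + 1 := Nat.ceil_lt_add_one (by linarith)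
    have h2 : 8 * θ ≤ t := Nat.le_ceil _
    have ht0 : (0:ℝ) < t := by linarith
    have h3 : (t : ℝ) * s ≤ (8 * θ + 1) * s := mul_le_mul_of_nonneg_right h1.le (by linarith)
    have h4 : (s : ℝ) + t * s ≤ D / 32 := by nlinarith
    have h5 : (2 * s + 1) * (i:ℝ) ≤ D / 64 := by
      have h6 : (2 * s + 1) * (i:ℝ) ≤ 3 * s * i := mul_le_mul_of_nonneg_right (by linarith) hi.le
      have h7 : 3 * s * (i:ℝ) ≤ 3 * (s ^ 3 * p) * i :=
        mul_le_mul_of_nonneg_right (by linarith) hi.le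
      nlinarith
    have h6 : (s : ℝ) * (p * (i * (τ * s + 1))) ≤ θ * D := by
      rw [hθD]
      have h7 : τ * s + 1 ≤ s * (τ + 1) := by nlinarith
      have h8 : (s : ℝ) * (p * (i * (τ * s + 1))) ≤ s * (p * (i * (s * (τ + 1)))) := by
        refine mul_le_mul_of_nonneg_left ?_ (by linarith)
        refine mul_le_mul_of_nonneg_left ?_ (by linarith)
        exact mul_le_mul_of_nonneg_left h7 hi.le
      calc (s : ℝ) * (p * (i * (τ * s + 1))) ≤ s * (p * (i * (s * (τ + 1)))) := h8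
        _ = s ^ 2 * p * (τ + 1) * i := by ring
    have h9 : θ * D ≤ t * D / 8 := by nlinarith
    have h10 : (2 * s + 1) * (i:ℝ) * t ≤ D / 64 * t := mul_le_mul_of_nonneg_right h5 ht0.le
    have h11 : (t : ℝ) * (D / 2 - D / 32) ≤ t * (D / 2 - (s + t * s : ℕ)) := by
      refine mul_le_mul_of_nonneg_left ?_ ht0.le
      push_cast
      linarith
    have h12 : 0 < t * D := mul_pos ht0 hD
    nlinarith

/-- The embedding of a flower: a forest, joined to `d` by paths of length `j + 1` whose first `r`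
inner vertices are in `R`. -/
theorem Env.flower {Γ : SimpleGraph X} {S R : Finset X} {c : X} {i s : ℕ} {D τ : ℝ}
    (h : Env Γ S R c i s D τ) (W : Finset X) (hW : W.card ≤ s) (d : X) (hd : d ∈ S)
    (j r : ℕ) (hdr : 1 ≤ r → d ∈ R) (hj1 : 1 ≤ j) (hjs : j ≤ s) {L : Type} [Fintype L]
    (H : SimpleGraph L)
    (hH : H.IsAcyclic) (hL : Fintype.card L < s) :
    ∃ (g : L → X) (q : L → ℕ → X), Function.Injective g ∧ (∀ w, g w ∈ S ∧ g w ∉ W) ∧
      (∀ w w', H.Adj w w' → Γ.Adj (g w) (g w')) ∧ (∀ w, q w 0 = d) ∧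
      (∀ w k, 1 ≤ k → k ≤ j → q w k ∈ S ∧ (k ≤ r → q w k ∈ R) ∧ q w k ∉ W) ∧
      (∀ w k, k < j → Γ.Adj (q w k) (q w (k + 1))) ∧ (∀ w, Γ.Adj (q w j) (g w)) ∧
      (∀ w w' k, 1 ≤ k → k ≤ j → g w ≠ q w' k) ∧
      ∀ w w' k k', 1 ≤ k → k ≤ j → 1 ≤ k' → k' ≤ j → q w k = q w' k' → w = w' ∧ k = k' := by
  have hi0 := h.ipos
  have hs1 := h.spos
  have hτb := h.tau_big
  have hp1 := pow_one_le s
  have hs3 : (1:ℝ) ≤ s ^ 3 := one_le_pow₀ hs1
  have hs3p : (1:ℝ) ≤ s ^ 3 * 2 ^ (s + s * s) := by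
    calc (1:ℝ) = 1 * 1 := by ring
      _ ≤ s ^ 3 * 2 ^ (s + s * s) := mul_le_mul hs3 hp1 zero_le_one (by positivity)
  have hτ0 : 0 ≤ τ := by nlinarith
  have hD : 0 < D := by
    have := h.tauD
    nlinarith
  obtain ⟨t, ht1, ht2⟩ := exists_t hi0 hs1 hD h.tauD hτb h.big
  set Rk : ℕ → Finset X := fun k => if 1 ≤ r ∧ k ≤ r then R else S with hRk
  have hRkS : ∀ k, Rk k ⊆ S := by
    intro k
    show (if 1 ≤ r ∧ k ≤ r then R else S) ⊆ S
    split_ifs
    · exact h.RS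
    · exact Finset.Subset.refl _
  obtain ⟨a, a0, a1', a2, a3⟩ := exists_spider Γ Rk (s + 1 + t * s) (by
    intro k x hx
    by_cases hk : 1 ≤ r ∧ k + 1 ≤ r
    · have hx' : x ∈ (if 1 ≤ r ∧ k ≤ r then R else S) := hx
      rw [if_pos ⟨hk.1, by omega⟩] at hx'
      have h1 := h.degR x hx'
      have h2 : ((s + 1 + t * s : ℕ) : ℝ) ≤ dg Γ R x := by linarith
      show s + 1 + t * s ≤ dg Γ (if 1 ≤ r ∧ k + 1 ≤ r then R else S) x
      rw [if_pos hk]
      exact_mod_cast h2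
    · have h1 := h.degS x (hRkS k hx)
      have h3 := h.tauD
      have h2 : ((s + 1 + t * s : ℕ) : ℝ) ≤ dg Γ S x := by linarith
      show s + 1 + t * s ≤ dg Γ (if 1 ≤ r ∧ k + 1 ≤ r then R else S) x
      rw [if_neg hk]
      exact_mod_cast h2) d (by
    show d ∈ (if 1 ≤ r ∧ 0 ≤ r then R else S)
    by_cases hr : 1 ≤ r
    · rw [if_pos ⟨hr, Nat.zero_le r⟩]; exact hdr hr
    · rw [if_neg (fun h' => hr h'.1)]; exact hd) j t W (by
      have : t * j ≤ t * s := Nat.mul_le_mul_left t hjs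
      omega)
  have a1 : ∀ l, l < t → ∀ k, 1 ≤ k → k ≤ j → a l k ∈ S ∧ (k ≤ r → a l k ∈ R) ∧ a l k ∉ W := by
    intro l hl k hk1 hk2
    obtain ⟨h1, h2⟩ := a1' l hl k hk1 hk2
    refine ⟨hRkS k h1, ?_, h2⟩
    intro hkr
    have h3 : a l k ∈ (if 1 ≤ r ∧ k ≤ r then R else S) := h1
    rw [if_pos ⟨by omega, hkr⟩] at h3
    exact h3
  set W2 : Finset X := W ∪ ((Finset.range t) ×ˢ (Finset.Icc 1 j)).image (fun q => a q.1 q.2) with hW2
  have hW2c : W2.card ≤ s + t * s := by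
    refine (Finset.card_union_le _ _).trans (Nat.add_le_add hW ?_)
    refine Finset.card_image_le.trans ?_
    rw [Finset.card_product, Finset.card_range, Nat.card_Icc]
    exact Nat.mul_le_mul_left t (by omega)
  set U := S \ W2 with hU
  set A : X → Finset ℕ := fun u => (Finset.range t).filter (fun l => Γ.Adj (a l j) u) with hA
  have haR : ∀ l, l < t → a l j ∈ S := fun l hl => (a1 l hl j hj1 le_rfl).1
  have hsum : (t : ℝ) * (D / 2 - (s + t * s : ℕ)) ≤ ∑ u ∈ U, ((A u).card : ℝ) := by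
    have h1 : ∑ u ∈ U, ((A u).card : ℝ) =
        ∑ l ∈ Finset.range t, ((U.filter (fun u => Γ.Adj (a l j) u)).card : ℝ) := by
      simp only [hA, Finset.card_filter]
      push_cast
      exact Finset.sum_comm
    rw [h1]
    have h2 : ∀ l ∈ Finset.range t, (D / 2 - (s + t * s : ℕ)) ≤
        ((U.filter (fun u => Γ.Adj (a l j) u)).card : ℝ) := by
      intro l hl
      have h3 := h.degS (a l j) (haR l (Finset.mem_range.1 hl))
      have h4 : dg Γ S (a l j) ≤ (U.filter (fun u => Γ.Adj (a l j) u)).card + W2.card := by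
        unfold dg
        have h5 : S.filter (fun u => Γ.Adj (a l j) u) ⊆ U.filter (fun u => Γ.Adj (a l j) u) ∪ W2 := by
          intro u hu
          rw [Finset.mem_filter] at hu
          by_cases h6 : u ∈ W2
          · exact Finset.mem_union_right _ h6
          · exact Finset.mem_union_left _
              (Finset.mem_filter.2 ⟨Finset.mem_sdiff.2 ⟨hu.1, h6⟩, hu.2⟩)
        exact (Finset.card_le_card h5).trans (Finset.card_union_le _ _)
      have h5 : (dg Γ S (a l j) : ℝ) ≤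
          (U.filter (fun u => Γ.Adj (a l j) u)).card + (s + t * s : ℕ) := by
        exact_mod_cast h4.trans (Nat.add_le_add_left hW2c _)
      linarith
    calc (t : ℝ) * (D / 2 - (s + t * s : ℕ)) =
          ∑ _l ∈ Finset.range t, (D / 2 - ((s + t * s : ℕ) : ℝ)) := by
            rw [Finset.sum_const, Finset.card_range, nsmul_eq_mul]
      _ ≤ _ := Finset.sum_le_sum h2
  obtain ⟨g, lam, g1, l1, g2, l2, g3⟩ := rainbow Γ U (Finset.range t) A
    (fun u _ => Finset.filter_subset _ _) i s h.s0 τ hτ0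
    (fun I hI => h.indS I (hI.trans Finset.sdiff_subset))
    (by
      intro l hl Z hZ hadj
      refine h.nb (a l j) (haR l (Finset.mem_range.1 hl)) Z (hZ.trans Finset.sdiff_subset) ?_
      intro z hz
      exact (Finset.mem_filter.1 (hadj z hz)).2)
    (by
      rw [Finset.card_range]
      exact lt_of_lt_of_le ht2 hsum) H hH hL
  have hlam : ∀ w, lam w < t ∧ Γ.Adj (a (lam w) j) (g w) := by
    intro w
    have h1 := Finset.mem_filter.1 (l2 w)
    exact ⟨Finset.mem_range.1 h1.1, h1.2⟩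
  have hgm : ∀ w, g w ∈ S ∧ g w ∉ W2 := fun w => Finset.mem_sdiff.1 (g2 w)
  refine ⟨g, fun w k => a (lam w) k, g1, ?_, g3, fun w => a0 _, ?_, ?_, fun w => (hlam w).2, ?_, ?_⟩
  · intro w
    exact ⟨(hgm w).1, fun h' => (hgm w).2 (Finset.mem_union_left _ h')⟩
  · intro w k hk1 hk2
    exact a1 _ (hlam w).1 k hk1 hk2
  · intro w k hk
    exact a2 _ (hlam w).1 k hk
  · intro w w' k hk1 hk2 he
    refine (hgm w).2 (Finset.mem_union_right _ (Finset.mem_image.2 ⟨(lam w', k), ?_, he.symm⟩))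
    exact Finset.mem_product.2 ⟨Finset.mem_range.2 (hlam w').1, Finset.mem_Icc.2 ⟨hk1, hk2⟩⟩
  · intro w w' k k' hk1 hk2 hk1' hk2' he
    have h1 := a3 _ _ k k' (hlam w).1 (hlam w').1 hk1 hk2 hk1' hk2' he
    exact ⟨l1 h1.1, h1.2⟩

/-- The embedding of a fan. -/
theorem Env.fan {Γ : SimpleGraph X} {S R : Finset X} {c : X} {i s : ℕ} {D τ : ℝ}
    (h : Env Γ S R c i s D τ) (W : Finset X) (hW : W.card ≤ s) (d : X) (hd : d ∈ S)
    {L : Type} [Fintype L] (H : SimpleGraph L) (hH : H.IsAcyclic) (hL : Fintype.card L < s) :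
    ∃ g : L → X, Function.Injective g ∧ (∀ w, g w ∈ S ∧ g w ∉ W ∧ Γ.Adj d (g w)) ∧
      ∀ w w', H.Adj w w' → Γ.Adj (g w) (g w') := by
  have hi0 := h.ipos
  have hs1 := h.spos
  have hi1 : (1:ℝ) ≤ i := by exact_mod_cast h.i0
  have hp1 := pow_one_le s
  have hs3 : (s:ℝ) ≤ s ^ 3 := by
    have : (1:ℝ) ≤ s ^ 2 := one_le_pow₀ hs1
    nlinarith
  have hs3p : (s:ℝ) ^ 3 ≤ s ^ 3 * 2 ^ (s + s * s) := le_mul_of_one_le_right (by positivity) hp1
  have hb : 1024 * (s * (i:ℝ)) ≤ D := by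
    have h1 : (s:ℝ) * i ≤ s ^ 3 * 2 ^ (s + s * s) * i :=
      mul_le_mul_of_nonneg_right (by linarith) hi0.le
    have h2 := h.big
    nlinarith
  set Z := (S.filter (fun u => Γ.Adj d u)) \ W with hZ
  have hZS : Z ⊆ S := Finset.sdiff_subset.trans (Finset.filter_subset _ _)
  have hZc : (2 * s + 1) * i < Z.card := by
    have h1 := h.degS d hd
    have h2 : dg Γ S d ≤ Z.card + W.card := by
      have h2' : dg Γ S d - W.card ≤ Z.card := Finset.le_card_sdiff W (S.filter (fun u => Γ.Adj d u))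
      omega
    have h3 : (dg Γ S d : ℝ) ≤ Z.card + s := by exact_mod_cast h2.trans (Nat.add_le_add_left hW _)
    have h4 : ((2 * s + 1) * i : ℝ) < Z.card := by nlinarith
    exact_mod_cast h4
  obtain ⟨W0, hW0, hne, hdeg⟩ := exists_core Γ Z s i
    (fun I hI => h.indS I (hI.trans hZS)) hZc
  obtain ⟨g, g1, g2, g3⟩ := embed_core Γ W0 s hne hdeg H hH hL
  refine ⟨g, g1, ?_, g3⟩
  intro w
  have h1 := Finset.mem_sdiff.1 (hW0 (g2 w))
  have h2 := Finset.mem_filter.1 h1.1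
  exact ⟨h2.1, h1.2, h2.2⟩

/-- The embedding of a red vertex. -/
theorem Env.red {Γ : SimpleGraph X} {S R : Finset X} {c : X} {i s : ℕ} {D τ : ℝ}
    (h : Env Γ S R c i s D τ) (W : Finset X) (hW : W.card ≤ s) (x : X) (hx : x ∈ R) :
    ∃ z ∈ R, z ∉ W ∧ Γ.Adj x z := by
  have hs1 := h.spos
  have hp1 := pow_one_le s
  have hs3 : (s:ℝ) ≤ s ^ 3 := by
    have : (1:ℝ) ≤ s ^ 2 := one_le_pow₀ hs1
    nlinarith
  have hs3p : (s:ℝ) ^ 3 ≤ s ^ 3 * 2 ^ (s + s * s) := le_mul_of_one_le_right (by positivity) hp1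
  have h1 := h.degR x hx
  have h2 := h.tau_big
  have h3 : ((W.card : ℕ) : ℝ) < dg Γ R x := by
    have : (W.card : ℝ) ≤ s := by exact_mod_cast hW
    nlinarith
  have h4 : W.card < dg Γ R x := by exact_mod_cast h3
  have h5 : ¬ R.filter (fun w => Γ.Adj x w) ⊆ W := by
    intro hsub
    have := Finset.card_le_card hsub
    unfold dg at h4
    omega
  obtain ⟨z, hz, hzW⟩ := Finset.not_subset.1 h5
  rw [Finset.mem_filter] at hz
  exact ⟨z, hz.1, hzW, hz.2⟩

end Pool.Agent.Helper44.Tri
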