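import Pool.Agent.Helper44.Tri.FlowerL

/-! # The class of graphs grown around a vertex -/

set_option autoImplicit false
open Classical Finset

namespace Pool.Agent.Helper44.Tri

/-- `Grown T c P B`: the subgraph of `T` induced on `P` is grown around the vertex `c`, with the set
`B ⊆ P` of *red* vertices (placed in the neighbourhood of `c`). One starts with the vertex `c` and
adds, again and again,
* a red vertex `v`, joined to no old vertices but `c` and one old red vertex `x` (at most);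
* a forest `L`, joined to one old vertex `d` (at most);
* a forest `L` and, for some of the vertices `u` of `L`, a path `d = y u 0, y u 1, ..., y u j, u` of
  length `j + 1` from an old vertex `d` to `u`; the paths are disjoint up to `d`, their inner
  vertices are new, the first `r` inner vertices of every path are red and may be joined to `c`
  (if `r > 0` then `d` must be red); there are no other new edges. -/
inductive Grown {V : Type} (T : SimpleGraph V) (c : V) : Set V → Set V → Prop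
  | start : Grown T c {c} ∅
  | red (P B : Set V) (v x : V) (h : Grown T c P B) (hv : v ∉ P) (hx : x ∈ B ∨ x = c)
      (hT : ∀ w ∈ P, T.Adj v w → w = c ∨ w = x) : Grown T c (insert v P) (insert v B)
  | fan (P B L : Set V) (d : V) (h : Grown T c P B) (hd : d ∈ P) (hL : Disjoint P L)
      (hac : (T.induce L).IsAcyclic) (hT : ∀ u ∈ L, ∀ w ∈ P, T.Adj u w → w = d) :
      Grown T c (P ∪ L) B
  | flower (P B L M Q : Set V) (d : V) (j r : ℕ) (y : V → ℕ → V) (h : Grown T c P B) (hd : d ∈ P)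
      (hdr : 1 ≤ r → d ∈ B) (hj : 1 ≤ j) (hL : Disjoint P L) (hac : (T.induce L).IsAcyclic)
      (hM : M ⊆ L) (hQ : Q = {v | ∃ u ∈ M, ∃ k, 1 ≤ k ∧ k ≤ j ∧ v = y u k})
      (hPQ : Disjoint (P ∪ L) Q) (h0 : ∀ u ∈ M, y u 0 = d)
      (hinj : ∀ u ∈ M, ∀ u' ∈ M, ∀ k k', 1 ≤ k → k ≤ j → 1 ≤ k' → k' ≤ j →
        y u k = y u' k' → u = u' ∧ k = k')
      (hTL : ∀ u ∈ L, ∀ w ∈ P ∪ Q, T.Adj u w → u ∈ M ∧ w = y u j)
      (hTQ : ∀ u ∈ M, ∀ k, 1 ≤ k → k ≤ j → ∀ w ∈ P ∪ Q, T.Adj (y u k) w →
        (w = c ∧ k ≤ r) ∨ w = y u (k - 1) ∨ (k < j ∧ w = y u (k + 1))) :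
      Grown T c (P ∪ L ∪ Q) (B ∪ {v | ∃ u ∈ M, ∃ k, 1 ≤ k ∧ k ≤ j ∧ k ≤ r ∧ v = y u k})

variable {V X : Type} [Fintype V] [Fintype X]

omit [Fintype V] in
theorem Grown.basic {T : SimpleGraph V} {c : V} {P B : Set V} (h : Grown T c P B) :
    c ∈ P ∧ B ⊆ P ∧ c ∉ B := by
  induction h with
  | start => exact ⟨rfl, Set.empty_subset _, Set.notMem_empty _⟩
  | red P B v x _ hv _ _ ih =>
    refine ⟨Or.inr ih.1, Set.insert_subset_insert ih.2.1, ?_⟩
    rintro (h | h)
    · exact hv (h ▸ ih.1)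
    · exact ih.2.2 h
  | fan P B L d _ _ _ _ _ ih => exact ⟨Or.inl ih.1, ih.2.1.trans Set.subset_union_left, ih.2.2⟩
  | flower P B L M Q d j r y _ _ _ _ _ _ _ hQ hPQ _ _ _ _ ih =>
    have hsub : {v | ∃ u ∈ M, ∃ k, 1 ≤ k ∧ k ≤ j ∧ k ≤ r ∧ v = y u k} ⊆ Q := by
      rintro v ⟨u, hu, k, h1, h2, _, h3⟩
      rw [hQ]
      exact ⟨u, hu, k, h1, h2, h3⟩
    refine ⟨Or.inl (Or.inl ih.1), ?_, ?_⟩
    · rintro a (h | h)
      · exact Or.inl (Or.inl (ih.2.1 h))
      · exact Or.inr (hsub h)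
    · rintro (h | h)
      · exact ih.2.2 h
      · exact Set.disjoint_left.1 hPQ (Or.inl ih.1) (hsub h)

/-- partial embeddings -/
structure Emb (T : SimpleGraph V) (c : V) (P B : Set V) (Γ : SimpleGraph X) (S R : Finset X) (c0 : X)
    (f : V → X) : Prop where
  inj : ∀ a ∈ P, ∀ b ∈ P, f a = f b → a = b
  mem : ∀ a ∈ P, f a ∈ S
  cen : f c = c0
  red : ∀ a ∈ B, f a ∈ R
  adj : ∀ a ∈ P, ∀ b ∈ P, T.Adj a b → Γ.Adj (f a) (f b)

theorem exists_emb {T : SimpleGraph V} {c : V} {Γ : SimpleGraph X} {S R : Finset X} {c0 : X}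
    {i s : ℕ} {D τ : ℝ} (hE : Env Γ S R c0 i s D τ) (hs : Fintype.card V < s) {P B : Set V}
    (h : Grown T c P B) : ∃ f : V → X, Emb T c P B Γ S R c0 f := by
  have hcardL : ∀ L : Set V, Fintype.card L < s := fun L =>
    lt_of_le_of_lt (Fintype.card_subtype_le _) hs
  induction h with
  | start =>
    refine ⟨fun _ => c0, ?_, ?_, rfl, ?_, ?_⟩
    · intro a ha b hb _
      exact (Set.mem_singleton_iff.1 ha).trans (Set.mem_singleton_iff.1 hb).symm
    · intro a _; exact hE.cS
    · intro a ha; exact absurd ha (Set.notMem_empty a)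
    · intro a ha b hb hab
      rw [Set.mem_singleton_iff.1 ha, Set.mem_singleton_iff.1 hb] at hab
      exact absurd hab (T.loopless.irrefl _)
  | red P B v x hg hv hx hT ih =>
    obtain ⟨f, hf⟩ := ih
    obtain ⟨hc, hBP, hcB⟩ := hg.basic
    set W : Finset X := (univ.filter (fun a : V => a ∈ P)).image f with hW
    have hWc : W.card ≤ s := (Finset.card_image_le.trans (Finset.card_le_univ _)).trans hs.le
    have hWm : ∀ a ∈ P, f a ∈ W := fun a ha =>
      Finset.mem_image.2 ⟨a, Finset.mem_filter.2 ⟨Finset.mem_univ a, ha⟩, rfl⟩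
    have hz : ∃ z ∈ R, z ∉ W ∧ (x ∈ B → Γ.Adj (f x) z) := by
      rcases hx with hx | hx
      · obtain ⟨z, z1, z2, z3⟩ := hE.red W hWc (f x) (hf.red x hx)
        exact ⟨z, z1, z2, fun _ => z3⟩
      · obtain ⟨r0, hr0⟩ := hE.Rne
        obtain ⟨z, z1, z2, _⟩ := hE.red W hWc r0 hr0
        exact ⟨z, z1, z2, fun h => absurd (hx ▸ h) hcB⟩
    obtain ⟨z, z1, z2, z3⟩ := hz
    have hne : ∀ a ∈ P, a ≠ v := fun a ha h => hv (h ▸ ha)
    have hadj : ∀ w ∈ P, T.Adj v w → Γ.Adj z (f w) := by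
      intro w hw hvw
      by_cases hwc : w = c
      · rw [hwc, hf.cen]; exact (hE.Radj z z1).symm
      · rcases hT w hw hvw with h | h
        · exact absurd h hwc
        · rcases hx with hx | hx
          · rw [h]; exact (z3 hx).symm
          · exact absurd (h.trans hx) hwc
    refine ⟨Function.update f v z, ?_, ?_, ?_, ?_, ?_⟩
    · rintro a (ha | ha) b (hb | hb) hab
      · rw [ha, hb]
      · rw [ha, Function.update_self, Function.update_of_ne (hne b hb)] at hab
        exact absurd (hab ▸ hWm b hb) z2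
      · rw [hb, Function.update_self, Function.update_of_ne (hne a ha)] at hab
        exact absurd (hab ▸ hWm a ha) z2
      · rw [Function.update_of_ne (hne a ha), Function.update_of_ne (hne b hb)] at hab
        exact hf.inj a ha b hb hab
    · rintro a (ha | ha)
      · rw [ha, Function.update_self]; exact hE.RS z1
      · rw [Function.update_of_ne (hne a ha)]; exact hf.mem a ha
    · rw [Function.update_of_ne (hne c hc)]; exact hf.cen
    · rintro a (ha | ha)
      · rw [ha, Function.update_self]; exact z1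
      · rw [Function.update_of_ne (hne a (hBP ha))]; exact hf.red a ha
    · rintro a (ha | ha) b (hb | hb) hab
      · rw [ha, hb] at hab
        exact absurd hab (T.loopless.irrefl _)
      · rw [ha, Function.update_self, Function.update_of_ne (hne b hb)]
        exact hadj b hb (ha ▸ hab)
      · rw [hb, Function.update_self, Function.update_of_ne (hne a ha)]
        exact (hadj a ha (hb ▸ hab.symm)).symm
      · rw [Function.update_of_ne (hne a ha), Function.update_of_ne (hne b hb)]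
        exact hf.adj a ha b hb hab
  | fan P B L d hg hd hL hac hT ih =>
    obtain ⟨f, hf⟩ := ih
    obtain ⟨hc, hBP, hcB⟩ := hg.basic
    set W : Finset X := (univ.filter (fun a : V => a ∈ P)).image f with hW
    have hWc : W.card ≤ s := (Finset.card_image_le.trans (Finset.card_le_univ _)).trans hs.le
    have hWm : ∀ a ∈ P, f a ∈ W := fun a ha =>
      Finset.mem_image.2 ⟨a, Finset.mem_filter.2 ⟨Finset.mem_univ a, ha⟩, rfl⟩
    obtain ⟨g, g1, g2, g3⟩ := hE.fan W hWc (f d) (hf.mem d hd) (T.induce L) hac (hcardL L)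
    set f' : V → X := fun a => if h : a ∈ L then g ⟨a, h⟩ else f a with hf'
    have fL : ∀ u (hu : u ∈ L), f' u = g ⟨u, hu⟩ := fun u hu => dif_pos hu
    have fP : ∀ a ∈ P, f' a = f a := fun a ha => dif_neg (Set.disjoint_left.1 hL ha)
    have hLP : ∀ u ∈ L, ∀ w ∈ P, T.Adj u w → Γ.Adj (f' u) (f' w) := by
      intro u hu w hw huw
      rw [fL u hu, fP w hw, hT u hu w hw huw]
      exact (g2 _).2.2.symm
    refine ⟨f', ?_, ?_, ?_, ?_, ?_⟩
    · rintro a (ha | ha) b (hb | hb) hab
      · rw [fP a ha, fP b hb] at hab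
        exact hf.inj a ha b hb hab
      · rw [fP a ha, fL b hb] at hab
        exact absurd (hab ▸ hWm a ha) (g2 _).2.1
      · rw [fL a ha, fP b hb] at hab
        exact absurd (hab ▸ hWm b hb) (g2 _).2.1
      · rw [fL a ha, fL b hb] at hab
        exact congrArg Subtype.val (g1 hab)
    · rintro a (ha | ha)
      · rw [fP a ha]; exact hf.mem a ha
      · rw [fL a ha]; exact (g2 _).1
    · rw [fP c hc]; exact hf.cen
    · intro a ha
      rw [fP a (hBP ha)]; exact hf.red a ha
    · rintro a (ha | ha) b (hb | hb) hab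
      · rw [fP a ha, fP b hb]
        exact hf.adj a ha b hb hab
      · exact (hLP b hb a ha hab.symm).symm
      · exact hLP a ha b hb hab
      · rw [fL a ha, fL b hb]
        exact g3 _ _ hab
  | flower P B L M Q d j r y hg hd hdr hj hL hac hM hQ hPQ h0 hinj hTL hTQ ih =>
    obtain ⟨f, hf⟩ := ih
    obtain ⟨hc, hBP, hcB⟩ := hg.basic
    set W : Finset X := (univ.filter (fun a : V => a ∈ P)).image f with hW
    have hWc : W.card ≤ s := (Finset.card_image_le.trans (Finset.card_le_univ _)).trans hs.le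
    have hWm : ∀ a ∈ P, f a ∈ W := fun a ha =>
      Finset.mem_image.2 ⟨a, Finset.mem_filter.2 ⟨Finset.mem_univ a, ha⟩, rfl⟩
    have hyQ : ∀ u ∈ M, ∀ k, 1 ≤ k → k ≤ j → y u k ∈ Q := by
      intro u hu k hk1 hk2
      rw [hQ]
      exact ⟨u, hu, k, hk1, hk2, rfl⟩
    -- without paths the flower is a forest without edges to the old vertices
    by_cases hMe : ∃ u, u ∈ M
    swap
    · have hQe : Q = ∅ := by
        rw [hQ]
        ext v
        constructor
        · rintro ⟨u, hu, _⟩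
          exact absurd ⟨u, hu⟩ hMe
        · intro h
          exact absurd h (Set.notMem_empty v)
      obtain ⟨g, g1, g2, g3⟩ := hE.fan W hWc (f d) (hf.mem d hd) (T.induce L) hac (hcardL L)
      set f' : V → X := fun a => if h : a ∈ L then g ⟨a, h⟩ else f a with hf'
      have fL : ∀ u (hu : u ∈ L), f' u = g ⟨u, hu⟩ := fun u hu => dif_pos hu
      have fP : ∀ a ∈ P, f' a = f a := fun a ha => dif_neg (Set.disjoint_left.1 hL ha)
      have hLP : ∀ u ∈ L, ∀ w ∈ P, ¬ T.Adj u w := fun u hu w hw huw =>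
        hMe ⟨u, (hTL u hu w (Or.inl hw) huw).1⟩
      have hmem : ∀ a, a ∈ P ∪ L ∪ Q → a ∈ P ∨ a ∈ L := by
        rintro a (h | h)
        · exact h
        · rw [hQe] at h; exact absurd h (Set.notMem_empty a)
      refine ⟨f', ?_, ?_, ?_, ?_, ?_⟩
      · intro a ha b hb hab
        rcases hmem a ha with ha | ha <;> rcases hmem b hb with hb | hb
        · rw [fP a ha, fP b hb] at hab
          exact hf.inj a ha b hb hab
        · rw [fP a ha, fL b hb] at hab
          exact absurd (hab ▸ hWm a ha) (g2 _).2.1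
        · rw [fL a ha, fP b hb] at hab
          exact absurd (hab ▸ hWm b hb) (g2 _).2.1
        · rw [fL a ha, fL b hb] at hab
          exact congrArg Subtype.val (g1 hab)
      · intro a ha
        rcases hmem a ha with ha | ha
        · rw [fP a ha]; exact hf.mem a ha
        · rw [fL a ha]; exact (g2 _).1
      · rw [fP c hc]; exact hf.cen
      · rintro a (ha | ⟨u, hu, _⟩)
        · rw [fP a (hBP ha)]; exact hf.red a ha
        · exact absurd ⟨u, hu⟩ hMe
      · intro a ha b hb hab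
        rcases hmem a ha with ha | ha <;> rcases hmem b hb with hb | hb
        · rw [fP a ha, fP b hb]
          exact hf.adj a ha b hb hab
        · exact absurd hab.symm (hLP b hb a ha)
        · exact absurd hab (hLP a ha b hb)
        · rw [fL a ha, fL b hb]
          exact g3 _ _ hab
    obtain ⟨u0, hu0⟩ := hMe
    have hjs : j ≤ s := by
      have h1 : ((Finset.Icc 1 j).image (fun k => y u0 k)).card = j := by
        rw [Finset.card_image_of_injOn, Nat.card_Icc]
        · omega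
        · intro k hk k' hk' hkk
          rw [Finset.coe_Icc, Set.mem_Icc] at hk hk'
          exact (hinj u0 hu0 u0 hu0 k k' hk.1 hk.2 hk'.1 hk'.2 hkk).2
      have h2 := Finset.card_le_univ ((Finset.Icc 1 j).image (fun k => y u0 k))
      omega
    obtain ⟨g, q, g1, g2, g3, q0, q1, q2, q3, q4, q5⟩ :=
      hE.flower W hWc (f d) (hf.mem d hd) j r (fun h => hf.red d (hdr h)) hj hjs (T.induce L) hac
        (hcardL L)
    set f' : V → X := fun a => if h : a ∈ L then g ⟨a, h⟩ else
      if h : ∃ (p : M × ℕ), 1 ≤ p.2 ∧ p.2 ≤ j ∧ a = y p.1 p.2 then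
        q ⟨h.choose.1.1, hM h.choose.1.2⟩ h.choose.2
      else f a with hf'
    have fL : ∀ u (hu : u ∈ L), f' u = g ⟨u, hu⟩ := fun u hu => dif_pos hu
    have hQL : ∀ a ∈ Q, a ∉ L := fun a ha h => Set.disjoint_left.1 hPQ (Or.inr h) ha
    have hQP : ∀ a ∈ Q, a ∉ P := fun a ha h => Set.disjoint_left.1 hPQ (Or.inl h) ha
    have fP : ∀ a ∈ P, f' a = f a := by
      intro a ha
      have h1 : a ∉ L := Set.disjoint_left.1 hL ha
      have h2 : ¬ ∃ (p : M × ℕ), 1 ≤ p.2 ∧ p.2 ≤ j ∧ a = y p.1 p.2 := by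
        rintro ⟨p, hp1, hp2, hp3⟩
        exact hQP a (hp3 ▸ hyQ p.1 p.1.2 p.2 hp1 hp2) ha
      show (if h : a ∈ L then g ⟨a, h⟩ else
        if h : ∃ (p : M × ℕ), 1 ≤ p.2 ∧ p.2 ≤ j ∧ a = y p.1 p.2 then
          q ⟨h.choose.1.1, hM h.choose.1.2⟩ h.choose.2
        else f a) = f a
      rw [dif_neg h1, dif_neg h2]
    have fQ : ∀ u (hu : u ∈ M), ∀ k, 1 ≤ k → k ≤ j → f' (y u k) = q ⟨u, hM hu⟩ k := by
      intro u hu k hk1 hk2
      have h1 : y u k ∉ L := hQL _ (hyQ u hu k hk1 hk2)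
      have h2 : ∃ (p : M × ℕ), 1 ≤ p.2 ∧ p.2 ≤ j ∧ y u k = y p.1 p.2 :=
        ⟨(⟨u, hu⟩, k), hk1, hk2, rfl⟩
      show (if h : y u k ∈ L then g ⟨y u k, h⟩ else
        if h : ∃ (p : M × ℕ), 1 ≤ p.2 ∧ p.2 ≤ j ∧ y u k = y p.1 p.2 then
          q ⟨h.choose.1.1, hM h.choose.1.2⟩ h.choose.2
        else f (y u k)) = q ⟨u, hM hu⟩ k
      rw [dif_neg h1, dif_pos h2]
      obtain ⟨hp1, hp2, hp3⟩ := h2.choose_spec
      obtain ⟨e1, e2⟩ := hinj u hu h2.choose.1 h2.choose.1.2 k h2.choose.2 hk1 hk2 hp1 hp2 hp3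
      have e3 : (⟨h2.choose.1.1, hM h2.choose.1.2⟩ : L) = ⟨u, hM hu⟩ := Subtype.ext e1.symm
      rw [e3, ← e2]
    have hQm : ∀ a ∈ Q, ∃ u, ∃ _ : u ∈ M, ∃ k, 1 ≤ k ∧ k ≤ j ∧ a = y u k := by
      intro a ha
      rw [hQ] at ha
      obtain ⟨u, hu, k, h⟩ := ha
      exact ⟨u, hu, k, h⟩
    -- edges at `L`
    have hLL : ∀ u ∈ L, ∀ w ∈ P ∪ L ∪ Q, T.Adj u w → Γ.Adj (f' u) (f' w) := by
      rintro u hu w ((hw | hw) | hw) huw
      · have := hTL u hu w (Or.inl hw) huw
        exact absurd hw (hQP w (this.2 ▸ hyQ u this.1 j hj le_rfl))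
      · rw [fL u hu, fL w hw]
        exact g3 _ _ huw
      · have := hTL u hu w (Or.inr hw) huw
        rw [this.2, fL u hu, fQ u this.1 j hj le_rfl]
        exact (q3 _).symm
    -- edges at `Q`
    have hQQ : ∀ a ∈ Q, ∀ w ∈ P ∪ Q, T.Adj a w → Γ.Adj (f' a) (f' w) := by
      intro a ha w hw haw
      obtain ⟨u, hu, k, hk1, hk2, rfl⟩ := hQm a ha
      rcases hTQ u hu k hk1 hk2 w hw haw with h | h | h
      · rw [h.1, fP c hc, hf.cen, fQ u hu k hk1 hk2]
        exact (hE.Radj _ ((q1 _ k hk1 hk2).2.1 h.2)).symm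
      · by_cases hk : k = 1
        · have hwd : w = d := by
            rw [h, hk]; exact h0 u hu
          rw [hwd, fP d hd, fQ u hu k hk1 hk2]
          have h3 := q2 ⟨u, hM hu⟩ 0 (by omega)
          rw [q0] at h3
          rw [hk]
          exact h3.symm
        · rw [h, fQ u hu k hk1 hk2, fQ u hu (k - 1) (by omega) (by omega)]
          have h3 := q2 ⟨u, hM hu⟩ (k - 1) (by omega)
          have h4 : k - 1 + 1 = k := by omega
          rw [h4] at h3
          exact h3.symm
      · rw [h.2, fQ u hu k hk1 hk2, fQ u hu (k + 1) (by omega) (by omega)]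
        exact q2 ⟨u, hM hu⟩ k h.1
    refine ⟨f', ?_, ?_, ?_, ?_, ?_⟩
    · have hPL : ∀ a ∈ P, ∀ b ∈ L, f' a ≠ f' b := by
        intro a ha b hb hab
        rw [fP a ha, fL b hb] at hab
        exact absurd (hab ▸ hWm a ha) (g2 _).2
      have hPQ' : ∀ a ∈ P, ∀ b ∈ Q, f' a ≠ f' b := by
        intro a ha b hb hab
        obtain ⟨u, hu, k, hk1, hk2, rfl⟩ := hQm b hb
        rw [fP a ha, fQ u hu k hk1 hk2] at hab
        exact absurd (hab ▸ hWm a ha) (q1 _ k hk1 hk2).2.2
      have hLQ' : ∀ a ∈ L, ∀ b ∈ Q, f' a ≠ f' b := by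
        intro a ha b hb hab
        obtain ⟨u, hu, k, hk1, hk2, rfl⟩ := hQm b hb
        rw [fL a ha, fQ u hu k hk1 hk2] at hab
        exact q4 _ _ k hk1 hk2 hab
      rintro a ((ha | ha) | ha) b ((hb | hb) | hb) hab
      · rw [fP a ha, fP b hb] at hab
        exact hf.inj a ha b hb hab
      · exact absurd hab (hPL a ha b hb)
      · exact absurd hab (hPQ' a ha b hb)
      · exact absurd hab.symm (hPL b hb a ha)
      · rw [fL a ha, fL b hb] at hab
        exact congrArg Subtype.val (g1 hab)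
      · exact absurd hab (hLQ' a ha b hb)
      · exact absurd hab.symm (hPQ' b hb a ha)
      · exact absurd hab.symm (hLQ' b hb a ha)
      · obtain ⟨u, hu, k, hk1, hk2, rfl⟩ := hQm a ha
        obtain ⟨u', hu', k', hk1', hk2', rfl⟩ := hQm b hb
        rw [fQ u hu k hk1 hk2, fQ u' hu' k' hk1' hk2'] at hab
        obtain ⟨e1, e2⟩ := q5 _ _ k k' hk1 hk2 hk1' hk2' hab
        have e3 : u = u' := congrArg Subtype.val e1
        rw [e3, e2]
    · rintro a ((ha | ha) | ha)
      · rw [fP a ha]; exact hf.mem a ha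
      · rw [fL a ha]; exact (g2 _).1
      · obtain ⟨u, hu, k, hk1, hk2, rfl⟩ := hQm a ha
        rw [fQ u hu k hk1 hk2]
        exact (q1 _ k hk1 hk2).1
    · rw [fP c hc]; exact hf.cen
    · rintro a (ha | ⟨u, hu, k, hk1, hk2, hk3, rfl⟩)
      · rw [fP a (hBP ha)]; exact hf.red a ha
      · rw [fQ u hu k hk1 hk2]
        exact (q1 _ k hk1 hk2).2.1 hk3
    · rintro a ((ha | ha) | ha) b ((hb | hb) | hb) hab
      · rw [fP a ha, fP b hb]
        exact hf.adj a ha b hb hab
      · exact (hLL b hb a (Or.inl (Or.inl ha)) hab.symm).symm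
      · exact (hQQ b hb a (Or.inl ha) hab.symm).symm
      · exact hLL a ha b (Or.inl (Or.inl hb)) hab
      · exact hLL a ha b (Or.inl (Or.inr hb)) hab
      · exact hLL a ha b (Or.inr hb) hab
      · exact hQQ a ha b (Or.inl hb) hab
      · exact (hLL b hb a (Or.inr ha) hab.symm).symm
      · exact hQQ a ha b (Or.inr hb) hab

end Pool.Agent.Helper44.Tri
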