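import Pool.Agent.Helper44.Tri.Grown
import Pool.Agent.Helper14.Rsl.Assemble

/-! # Grown graphs are Ramsey size linear -/

set_option autoImplicit false
open Classical Finset

namespace Pool.Agent.Helper44.Tri
open Pool.Agent.Helper30.TwoTree (turan_bound nb)
open Pool.Agent.Helper14.Rsl (FM RSL rsl_of_FM)

variable {V X : Type} [Fintype V] [Fintype X]

/-- the extremal pair -/
theorem exists_env (Γ : SimpleGraph X) (S : Finset X) (i s : ℕ) (hs : 0 < s)
    (hi : ∀ I ⊆ S, (∀ a ∈ I, ∀ b ∈ I, ¬ Γ.Adj a b) → I.card < i)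
    (hlarge : (1024 * s ^ 3 * 2 ^ (s + s * s) : ℝ) * i * S.card < e2 Γ S) :
    ∃ (S' R : Finset X) (c : X) (D τ : ℝ), Env Γ S' R c i s D τ := by
  have hi0 : 0 < i := by
    have := hi ∅ (Finset.empty_subset _) (fun a ha => absurd ha (Finset.notMem_empty a))
    simpa using this
  have hi0' : (0:ℝ) < i := by exact_mod_cast hi0
  have hs1 : (1:ℝ) ≤ s := by exact_mod_cast hs
  have hne : S.Nonempty := by
    rw [Finset.nonempty_iff_ne_empty]
    intro h
    rw [h] at hlarge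
    simp [e2] at hlarge
  -- the set `S'`
  obtain ⟨S', hS', D, hD0, hD, hmax⟩ := exists_max Γ (S.powerset.filter (fun Z => Z.Nonempty))
    ⟨S, by rw [Finset.mem_filter, Finset.mem_powerset]; exact ⟨Finset.Subset.refl _, hne⟩⟩
    (fun Z hZ => (Finset.mem_filter.1 hZ).2)
  rw [Finset.mem_filter, Finset.mem_powerset] at hS'
  obtain ⟨hS'S, hS'ne⟩ := hS'
  have hmax' : ∀ Z ⊆ S, e2 Γ Z ≤ D * Z.card := by
    intro Z hZ
    rcases Z.eq_empty_or_nonempty with h | h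
    · rw [h]; simp [e2]
    · exact hmax Z (by rw [Finset.mem_filter, Finset.mem_powerset]; exact ⟨hZ, h⟩)
  have hbig : (1024 * s ^ 3 * 2 ^ (s + s * s) : ℝ) * i ≤ D := by
    have h1 := lt_of_lt_of_le hlarge (hmax' S (Finset.Subset.refl _))
    have h2 : (0:ℝ) < S.card := by exact_mod_cast Finset.card_pos.2 hne
    exact (lt_of_mul_lt_mul_right h1 h2.le).le
  have hDpos : 0 < D := by
    have h1 : (0:ℝ) < 1024 * s ^ 3 * 2 ^ (s + s * s) * i := by positivity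
    linarith
  have hdegS : ∀ x ∈ S', D ≤ 2 * dg Γ S' x := fun x hx =>
    le_deg_of_max Γ S' D hD (fun Z hZ => hmax' Z (hZ.trans hS'S)) x hx
  -- the family of the sets `R`
  set F2 : Finset (Finset X) := (S'.biUnion (fun a => (S'.filter (fun u => Γ.Adj a u)).powerset)).filter
    (fun Z => Z.Nonempty) with hF2
  have hF2m : ∀ Z, Z ∈ F2 ↔ (∃ a ∈ S', ∀ z ∈ Z, z ∈ S' ∧ Γ.Adj a z) ∧ Z.Nonempty := by
    intro Z
    rw [hF2, Finset.mem_filter, Finset.mem_biUnion]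
    constructor
    · rintro ⟨⟨a, ha, hZ⟩, hn⟩
      refine ⟨⟨a, ha, fun z hz => ?_⟩, hn⟩
      exact Finset.mem_filter.1 (Finset.mem_powerset.1 hZ hz)
    · rintro ⟨⟨a, ha, hZ⟩, hn⟩
      refine ⟨⟨a, ha, Finset.mem_powerset.2 fun z hz => Finset.mem_filter.2 (hZ z hz)⟩, hn⟩
  have hnbne : ∀ x ∈ S', (S'.filter (fun u => Γ.Adj x u)).Nonempty := by
    intro x hx
    have h1 := hdegS x hx
    have h2 : (0:ℝ) < dg Γ S' x := by linarith
    have h3 : 0 < dg Γ S' x := by exact_mod_cast h2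
    exact Finset.card_pos.1 h3
  obtain ⟨x0, hx0⟩ := hS'ne
  obtain ⟨R, hR, τ, hτ0, hτ, hτmax⟩ := exists_max Γ F2
    ⟨S'.filter (fun u => Γ.Adj x0 u), (hF2m _).2
      ⟨⟨x0, hx0, fun z hz => Finset.mem_filter.1 hz⟩, hnbne x0 hx0⟩⟩
    (fun Z hZ => ((hF2m Z).1 hZ).2)
  obtain ⟨⟨c, hc, hRc⟩, hRne⟩ := (hF2m R).1 hR
  have hnb : ∀ a ∈ S', ∀ Z ⊆ S', (∀ z ∈ Z, Γ.Adj a z) → e2 Γ Z ≤ τ * Z.card := by
    intro a ha Z hZ hadj
    rcases Z.eq_empty_or_nonempty with h | h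
    · rw [h]; simp [e2]
    · exact hτmax Z ((hF2m Z).2 ⟨⟨a, ha, fun z hz => ⟨hZ hz, hadj z hz⟩⟩, h⟩)
  have hRS : R ⊆ S' := fun z hz => (hRc z hz).1
  have hRpos : (0:ℝ) < R.card := by exact_mod_cast Finset.card_pos.2 hRne
  refine ⟨S', R, c, D, τ, hs, hi0, hdegS, fun I hI => hi I (hI.trans hS'S), hc, hRS, hRne,
    fun z hz => (hRc z hz).2, ?_, hnb, ?_, ?_, hbig⟩
  · intro x hx
    exact le_deg_of_max Γ R τ hτ (fun Z hZ => hnb c hc Z (hZ.trans hRS) (fun z hz => (hRc z (hZ hz)).2))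
      x hx
  · have h1 := hmax' R (hRS.trans hS'S)
    rw [hτ] at h1
    exact le_of_mul_le_mul_right h1 hRpos
  · set N := S'.filter (fun u => Γ.Adj c u) with hN
    have hNS : N ⊆ S' := Finset.filter_subset _ _
    have h1 := turan_bound Γ N i (fun I hI => hi I ((hI.trans hNS).trans hS'S))
    have h2 : (∑ u ∈ N, ((N.filter (fun w => Γ.Adj u w)).card : ℝ)) = e2 Γ N := rfl
    rw [h2] at h1
    have h3 := hnb c hc N hNS (fun z hz => (Finset.mem_filter.1 hz).2)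
    have h4 : (N.card : ℝ) ^ 2 ≤ i * (τ * N.card + N.card) :=
      h1.trans (mul_le_mul_of_nonneg_left (by linarith) hi0'.le)
    have h5 : (0:ℝ) < N.card := by exact_mod_cast Finset.card_pos.2 (hnbne c hc)
    have h6 : (N.card : ℝ) ≤ i * (τ + 1) := by
      have h7 : (N.card : ℝ) * N.card ≤ N.card * (i * (τ + 1)) := by nlinarith
      exact le_of_mul_le_mul_left h7 h5
    have h7 := hdegS c hc
    have h8 : (dg Γ S' c : ℝ) = N.card := rfl
    rw [h8] at h7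
    linarith

/-- Every graph grown around a vertex is Ramsey size linear. -/
theorem Grown.rsl {V : Type} [Fintype V] {T : SimpleGraph V} {c : V} {B : Set V}
    (h : Grown T c Set.univ B) : RSL T := by
  set s := Fintype.card V + 1 with hs
  have hs0 : 0 < s := by omega
  have hs1 : (1:ℝ) ≤ s := by exact_mod_cast hs0
  have hK : (1:ℝ) ≤ 1024 * s ^ 3 * 2 ^ (s + s * s) := by
    have h1 : (1:ℝ) ≤ s ^ 3 := one_le_pow₀ hs1
    have h2 := pow_one_le s
    nlinarith [mul_le_mul h1 h2 zero_le_one (by positivity : (0:ℝ) ≤ s ^ 3)]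
  refine rsl_of_FM T (1024 * s ^ 3 * 2 ^ (s + s * s)) hK ?_
  intro X _ Γ hno S i hi
  by_contra hcon
  push Not at hcon
  have h1 : e2 Γ S = ∑ u ∈ S, ((nb Γ S u).card : ℝ) := rfl
  rw [← h1] at hcon
  obtain ⟨S', R, c0, D, τ, hE⟩ := exists_env Γ S i s hs0 hi hcon
  obtain ⟨f, hf⟩ := exists_emb hE (by omega) h
  exact hno ⟨f, fun a b hab => hf.inj a (Set.mem_univ a) b (Set.mem_univ b) hab,
    fun a b hab => hf.adj a (Set.mem_univ a) b (Set.mem_univ b) hab⟩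

end Pool.Agent.Helper44.Tri
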