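import Pool.Agent.Helper44.Tri.Deg

/-! # Rainbow forests

`U` is a set of vertices, every vertex `u` has a finite set `A u` of labels, the vertices with a
given label span few edges. Under a numerical hypothesis every small forest has a copy in `U` whose
vertices get distinct labels. -/

set_option autoImplicit false
open Classical Finset

namespace Pool.Agent.Helper44.Tri
open Pool.Agent.Helper30.TwoTree (turan_bound)

variable {X : Type} [Fintype X] {ι : Type}

/-- the sets `ζ u` which separate the labels of adjacent vertices -/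
theorem exists_sep (Γ : SimpleGraph X) (A : X → Finset ι) (n : ℕ) (U : Finset X)
    (hbad : ∀ U' ⊆ U, U'.Nonempty → ∃ u ∈ U', ∃ Z : Finset ι, Z.card ≤ n ∧
      ∀ u' ∈ U', Γ.Adj u u' → ¬ Disjoint (A u') Z) :
    ∀ k : ℕ, ∀ U' ⊆ U, U'.card ≤ k → ∃ ζ : X → Finset ι,
      (∀ u ∈ U', (ζ u).card ≤ n ∧ Disjoint (A u) (ζ u)) ∧
      ∀ u ∈ U', ∀ u' ∈ U', Γ.Adj u u' →
        ¬ Disjoint (A u') (ζ u ∪ A u) ∨ ¬ Disjoint (A u) (ζ u' ∪ A u') := by
  intro k
  induction k with
  | zero =>
    intro U' _ hc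
    have h : U' = ∅ := Finset.card_eq_zero.1 (by omega)
    refine ⟨fun _ => ∅, ?_, ?_⟩
    · intro u hu; rw [h] at hu; exact absurd hu (Finset.notMem_empty u)
    · intro u hu; rw [h] at hu; exact absurd hu (Finset.notMem_empty u)
  | succ k ih =>
    intro U' hU' hc
    rcases U'.eq_empty_or_nonempty with h | hne
    · refine ⟨fun _ => ∅, ?_, ?_⟩
      · intro u hu; rw [h] at hu; exact absurd hu (Finset.notMem_empty u)
      · intro u hu; rw [h] at hu; exact absurd hu (Finset.notMem_empty u)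
    · obtain ⟨u0, hu0, Z, hZ, hall⟩ := hbad U' hU' hne
      have hc' := Finset.card_erase_add_one hu0
      obtain ⟨ζ, h1, h2⟩ := ih (U'.erase u0) ((Finset.erase_subset _ _).trans hU') (by omega)
      have hnd : ∀ u ∈ U', Γ.Adj u0 u → ¬ Disjoint (A u) (Z \ A u0 ∪ A u0) := by
        intro u hu hadj hd
        refine hall u hu hadj (hd.mono_right ?_)
        intro x hx
        by_cases h : x ∈ A u0
        · exact Finset.mem_union_right _ h
        · exact Finset.mem_union_left _ (Finset.mem_sdiff.2 ⟨hx, h⟩)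
      refine ⟨Function.update ζ u0 (Z \ A u0), ?_, ?_⟩
      · intro u hu
        by_cases h : u = u0
        · rw [h, Function.update_self]
          exact ⟨(Finset.card_le_card Finset.sdiff_subset).trans hZ, Finset.disjoint_sdiff⟩
        · rw [Function.update_of_ne h]
          exact h1 u (Finset.mem_erase.2 ⟨h, hu⟩)
      · intro u hu u' hu' hadj
        by_cases h : u = u0
        · left
          rw [h, Function.update_self]
          exact hnd u' hu' (h ▸ hadj)
        · by_cases h' : u' = u0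
          · right
            rw [h', Function.update_self]
            exact hnd u hu (h' ▸ hadj.symm)
          · rw [Function.update_of_ne h, Function.update_of_ne h']
            exact h2 u (Finset.mem_erase.2 ⟨h, hu⟩) u' (Finset.mem_erase.2 ⟨h', hu'⟩) hadj

/-- some set of labels captures many vertices -/
theorem exists_sample (A ζ : X → Finset ι) (T : Finset ι) (m n : ℕ) (U : Finset X)
    (hA : ∀ u ∈ U, A u ⊆ T) (hm : ∀ u ∈ U, (A u).card ≤ m)
    (hζ : ∀ u ∈ U, (ζ u).card ≤ n ∧ Disjoint (A u) (ζ u)) :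
    ∃ T' ⊆ T, U.card ≤ 2 ^ (m + n) * (U.filter (fun u => A u ⊆ T' ∧ Disjoint (ζ u) T')).card := by
  by_contra hcon
  push Not at hcon
  have h1 : ∑ T' ∈ T.powerset, 2 ^ (m + n) *
      (U.filter (fun u => A u ⊆ T' ∧ Disjoint (ζ u) T')).card < ∑ _T' ∈ T.powerset, U.card := by
    refine Finset.sum_lt_sum_of_nonempty ⟨∅, Finset.empty_mem_powerset T⟩ ?_
    intro T' hT'
    exact hcon T' (Finset.mem_powerset.1 hT')
  have h2 : ∑ _T' ∈ T.powerset, U.card = U.card * 2 ^ T.card := by
    rw [Finset.sum_const, Finset.card_powerset, smul_eq_mul, mul_comm]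
  have h3 : ∑ T' ∈ T.powerset, 2 ^ (m + n) *
      (U.filter (fun u => A u ⊆ T' ∧ Disjoint (ζ u) T')).card =
      ∑ u ∈ U, 2 ^ (m + n) * (T.powerset.filter (fun T' => A u ⊆ T' ∧ Disjoint (ζ u) T')).card := by
    rw [← Finset.mul_sum, ← Finset.mul_sum]
    congr 1
    simp only [Finset.card_filter]
    exact Finset.sum_comm
  have h4 : ∀ u ∈ U, 2 ^ T.card ≤
      2 ^ (m + n) * (T.powerset.filter (fun T' => A u ⊆ T' ∧ Disjoint (ζ u) T')).card := by
    intro u hu
    have hsub : A u ⊆ T \ ζ u := by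
      intro x hx
      exact Finset.mem_sdiff.2 ⟨hA u hu hx, Finset.disjoint_left.1 (hζ u hu).2 hx⟩
    have hIcc : Finset.Icc (A u) (T \ ζ u) ⊆
        T.powerset.filter (fun T' => A u ⊆ T' ∧ Disjoint (ζ u) T') := by
      intro T' hT'
      rw [Finset.mem_Icc] at hT'
      rw [Finset.mem_filter, Finset.mem_powerset]
      refine ⟨hT'.2.trans Finset.sdiff_subset, hT'.1, ?_⟩
      exact (Finset.disjoint_sdiff).mono_right hT'.2
    have hc1 := Finset.card_le_card hIcc
    rw [Finset.card_Icc_finset hsub] at hc1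
    have hc2 : T.card - n ≤ (T \ ζ u).card := by
      have := Finset.le_card_sdiff (ζ u) T
      have := (hζ u hu).1
      omega
    have hc3 := hm u hu
    calc 2 ^ T.card ≤ 2 ^ (m + n + ((T \ ζ u).card - (A u).card)) := by
          apply Nat.pow_le_pow_right (by norm_num)
          omega
      _ = 2 ^ (m + n) * 2 ^ ((T \ ζ u).card - (A u).card) := by rw [pow_add]
      _ ≤ _ := Nat.mul_le_mul_left _ hc1
  have h5 : ∑ _u ∈ U, 2 ^ T.card ≤
      ∑ u ∈ U, 2 ^ (m + n) * (T.powerset.filter (fun T' => A u ⊆ T' ∧ Disjoint (ζ u) T')).card :=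
    Finset.sum_le_sum h4
  rw [Finset.sum_const, smul_eq_mul] at h5
  rw [h3, h2] at h1
  exact absurd (lt_of_le_of_lt h5 h1) (lt_irrefl _)

/-- few edges if adjacent vertices share a label -/
theorem e2_le_labels (Γ : SimpleGraph X) (A : X → Finset ι) (T : Finset ι) (W : Finset X) (τ : ℝ)
    (m : ℕ) (hτ0 : 0 ≤ τ) (hm : ∀ u ∈ W, (A u).card ≤ m)
    (hτ : ∀ l ∈ T, e2 Γ (W.filter (fun z => l ∈ A z)) ≤ τ * (W.filter (fun z => l ∈ A z)).card)
    (hsh : ∀ u ∈ W, ∀ u' ∈ W, Γ.Adj u u' → ∃ l ∈ T, l ∈ A u ∧ l ∈ A u') (hT : ∀ u ∈ W, A u ⊆ T) :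
    e2 Γ W ≤ τ * m * W.card := by
  have h1 : e2 Γ W ≤ ∑ l ∈ T, e2 Γ (W.filter (fun z => l ∈ A z)) := by
    have h2 : e2 Γ W ≤ ∑ u ∈ W, ∑ l ∈ A u, (dg Γ (W.filter (fun z => l ∈ A z)) u : ℝ) := by
      unfold e2
      refine Finset.sum_le_sum (fun u hu => ?_)
      have h3 : W.filter (fun w => Γ.Adj u w) ⊆
          (A u).biUnion (fun l => (W.filter (fun z => l ∈ A z)).filter (fun w => Γ.Adj u w)) := by
        intro w hw
        rw [Finset.mem_filter] at hw
        obtain ⟨l, _, hl, hl'⟩ := hsh u hu w hw.1 hw.2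
        rw [Finset.mem_biUnion]
        exact ⟨l, hl, Finset.mem_filter.2 ⟨Finset.mem_filter.2 ⟨hw.1, hl'⟩, hw.2⟩⟩
      have h4 := (Finset.card_le_card h3).trans Finset.card_biUnion_le
      unfold dg
      exact_mod_cast h4
    refine h2.trans (le_of_eq ?_)
    unfold e2
    have h5 : ∀ u ∈ W, ∑ l ∈ A u, (dg Γ (W.filter (fun z => l ∈ A z)) u : ℝ) =
        ∑ l ∈ T, if l ∈ A u then (dg Γ (W.filter (fun z => l ∈ A z)) u : ℝ) else 0 := by
      intro u hu
      rw [← Finset.sum_filter]
      congr 1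
      ext l
      rw [Finset.mem_filter]
      exact ⟨fun h => ⟨hT u hu h, h⟩, fun h => h.2⟩
    rw [Finset.sum_congr rfl h5, Finset.sum_comm]
    refine Finset.sum_congr rfl (fun l _ => ?_)
    rw [Finset.sum_filter]
  have h2 : ∑ l ∈ T, e2 Γ (W.filter (fun z => l ∈ A z)) ≤
      ∑ l ∈ T, τ * ((W.filter (fun z => l ∈ A z)).card : ℝ) := Finset.sum_le_sum hτ
  have h3 : ∑ l ∈ T, τ * ((W.filter (fun z => l ∈ A z)).card : ℝ) = τ * ∑ u ∈ W, ((A u).card : ℝ) := by
    rw [← Finset.mul_sum]
    congr 1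
    have h4 : ∀ l ∈ T, ((W.filter (fun z => l ∈ A z)).card : ℝ) =
        ∑ u ∈ W, if l ∈ A u then (1:ℝ) else 0 := by
      intro l _
      rw [Finset.card_filter]
      push_cast
      rfl
    rw [Finset.sum_congr rfl h4, Finset.sum_comm]
    refine Finset.sum_congr rfl (fun u hu => ?_)
    rw [← Finset.sum_filter, Finset.sum_const, nsmul_eq_mul, mul_one]
    congr 2
    ext l
    rw [Finset.mem_filter]
    exact ⟨fun h => h.2, fun h => ⟨hT u hu h, h⟩⟩
  have h4 : ∑ u ∈ W, ((A u).card : ℝ) ≤ m * W.card := by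
    calc ∑ u ∈ W, ((A u).card : ℝ) ≤ ∑ _u ∈ W, (m : ℝ) :=
          Finset.sum_le_sum (fun u hu => by exact_mod_cast hm u hu)
      _ = m * W.card := by rw [Finset.sum_const, nsmul_eq_mul, mul_comm]
  calc e2 Γ W ≤ τ * ∑ u ∈ W, ((A u).card : ℝ) := h1.trans (h2.trans h3.le)
    _ ≤ τ * (m * W.card) := mul_le_mul_of_nonneg_left h4 hτ0
    _ = τ * m * W.card := by ring

/-- The rainbow lemma. -/
theorem rainbow (Γ : SimpleGraph X) (U : Finset X) (T : Finset ι) (A : X → Finset ι)
    (hA : ∀ u ∈ U, A u ⊆ T) (i s : ℕ) (hs : 0 < s) (τ : ℝ) (hτ0 : 0 ≤ τ)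
    (hi : ∀ I ⊆ U, (∀ a ∈ I, ∀ b ∈ I, ¬ Γ.Adj a b) → I.card < i)
    (hτ : ∀ l ∈ T, ∀ Z ⊆ U, (∀ z ∈ Z, l ∈ A z) → e2 Γ Z ≤ τ * Z.card)
    (hsum : ((2 * s + 1) * i * T.card + s * (2 ^ (s + s * s) * (i * (τ * s + 1))) : ℝ) <
      ∑ u ∈ U, ((A u).card : ℝ))
    {W : Type} [Fintype W] (H : SimpleGraph W) (hH : H.IsAcyclic) (hW : Fintype.card W < s) :
    ∃ (g : W → X) (lam : W → ι), Function.Injective g ∧ Function.Injective lam ∧
      (∀ w, g w ∈ U) ∧ (∀ w, lam w ∈ A (g w)) ∧ ∀ w w', H.Adj w w' → Γ.Adj (g w) (g w') := by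
  set Xf := U.filter (fun u => s ≤ (A u).card) with hXf
  by_cases hflex : (2 * s + 1) * i < Xf.card
  · -- many flexible vertices
    obtain ⟨W0, hW0, hne, hdeg⟩ := exists_core Γ Xf s i
      (fun I hI => hi I (hI.trans (Finset.filter_subset _ _))) hflex
    obtain ⟨g, g1, g2, g3⟩ := embed_core Γ W0 s hne hdeg H hH hW
    have hall : ∀ w, g w ∈ U ∧ s ≤ (A (g w)).card := fun w => Finset.mem_filter.1 (hW0 (g2 w))
    obtain ⟨lam, l1, l2⟩ := (Finset.all_card_le_biUnion_card_iff_exists_injective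
      (fun w => A (g w))).1 (by
        intro F
        rcases F.eq_empty_or_nonempty with h | ⟨w, hw⟩
        · rw [h]; simp
        · have h1 := Finset.card_le_card (Finset.subset_biUnion_of_mem (fun w => A (g w)) hw)
          have h2 := Finset.card_le_univ F
          have h3 := (hall w).2
          omega)
    exact ⟨g, lam, g1, l1, fun w => (hall w).1, l2, g3⟩
  · push Not at hflex
    set Us := U.filter (fun u => 0 < (A u).card ∧ (A u).card < s) with hUs
    -- the sum over the rigid vertices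
    have hsplit : ∑ u ∈ U, ((A u).card : ℝ) ≤ Xf.card * T.card + s * Us.card := by
      have h1 : ∀ u ∈ U, ((A u).card : ℝ) ≤
          (if s ≤ (A u).card then (T.card : ℝ) else 0) +
          (if 0 < (A u).card ∧ (A u).card < s then (s : ℝ) else 0) := by
        intro u hu
        have h2 : (A u).card ≤ T.card := Finset.card_le_card (hA u hu)
        by_cases h3 : s ≤ (A u).card
        · have h4 : ¬ (0 < (A u).card ∧ (A u).card < s) := by omega
          rw [if_pos h3, if_neg h4, add_zero]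
          exact_mod_cast h2
        · rw [if_neg h3, zero_add]
          by_cases h5 : 0 < (A u).card
          · rw [if_pos ⟨h5, by omega⟩]
            have h6 : (A u).card ≤ s := by omega
            exact_mod_cast h6
          · rw [if_neg (fun h => h5 h.1)]
            have h6 : (A u).card = 0 := by omega
            rw [h6]; simp
      refine (Finset.sum_le_sum h1).trans (le_of_eq ?_)
      rw [Finset.sum_add_distrib, ← Finset.sum_filter, ← Finset.sum_filter, Finset.sum_const,
        Finset.sum_const, nsmul_eq_mul, nsmul_eq_mul, hXf, hUs]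
      ring
    have hf : (Xf.card : ℝ) * T.card ≤ (2 * s + 1) * i * T.card := by
      have : (Xf.card : ℝ) ≤ (2 * s + 1) * i := by exact_mod_cast hflex
      exact mul_le_mul_of_nonneg_right this (Nat.cast_nonneg _)
    have hs' : (0:ℝ) < s := by exact_mod_cast hs
    have hUsc : (2 ^ (s + s * s) * (i * (τ * s + 1)) : ℝ) < Us.card := by
      have h1 : (s : ℝ) * (2 ^ (s + s * s) * (i * (τ * s + 1))) < s * Us.card := by linarith
      exact lt_of_mul_lt_mul_left h1 hs'.le
    by_cases hgood : ∃ U' ⊆ Us, U'.Nonempty ∧ ∀ u ∈ U', ∀ Z : Finset ι, Z.card ≤ s * s →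
        ∃ u' ∈ U', Γ.Adj u u' ∧ Disjoint (A u') Z
    · -- a rich set
      obtain ⟨U', hU', hne, hrich⟩ := hgood
      have hU'm : ∀ u ∈ U', u ∈ U ∧ 0 < (A u).card ∧ (A u).card < s := fun u hu =>
        Finset.mem_filter.1 (hU' hu)
      obtain ⟨g, g1, g2, g3⟩ := greedy Γ U' A s (s * s) hne (fun u hu => (hU'm u hu).2.2.le) hrich
        H hH (Nat.mul_le_mul_right s hW.le)
      have hne' : ∀ w, (A (g w)).Nonempty := fun w => Finset.card_pos.1 (hU'm _ (g1 w)).2.1
      choose lam hlam using hne'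
      have hlinj : Function.Injective lam := by
        intro w w' h
        by_contra hww
        exact Finset.disjoint_left.1 (g3 w w' hww) (hlam w) (h ▸ hlam w')
      have hginj : Function.Injective g := by
        intro w w' h
        by_contra hww
        have := g3 w w' hww
        rw [h] at this
        exact Finset.disjoint_left.1 this (hlam w') (hlam w')
      exact ⟨g, lam, hginj, hlinj, fun w => (hU'm _ (g1 w)).1, hlam, g2⟩
    · -- no rich set
      exfalso
      push Not at hgood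
      obtain ⟨ζ, z1, z2⟩ := exists_sep Γ A (s * s) Us (by
        intro U' hU' hne
        obtain ⟨u, hu, Z, hZ, h⟩ := hgood U' hU' hne
        exact ⟨u, hu, Z, hZ, h⟩) Us.card Us (Finset.Subset.refl _) le_rfl
      have hUsm : ∀ u ∈ Us, u ∈ U ∧ 0 < (A u).card ∧ (A u).card < s := fun u hu =>
        Finset.mem_filter.1 hu
      obtain ⟨T', hT', hcount⟩ := exists_sample A ζ T s (s * s) Us
        (fun u hu => hA u (hUsm u hu).1) (fun u hu => (hUsm u hu).2.2.le) z1
      set Y := Us.filter (fun u => A u ⊆ T' ∧ Disjoint (ζ u) T') with hY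
      have hYm : ∀ u ∈ Y, u ∈ Us ∧ A u ⊆ T' ∧ Disjoint (ζ u) T' := fun u hu =>
        Finset.mem_filter.1 hu
      have hYU : Y ⊆ U := fun u hu => (hUsm u (hYm u hu).1).1
      have hsh : ∀ u ∈ Y, ∀ u' ∈ Y, Γ.Adj u u' → ¬ Disjoint (A u') (ζ u ∪ A u) →
          ∃ l ∈ T, l ∈ A u ∧ l ∈ A u' := by
        intro u hu u' hu' _ hnd
        rw [Finset.not_disjoint_iff] at hnd
        obtain ⟨l, hl, hl'⟩ := hnd
        rcases Finset.mem_union.1 hl' with h | h
        · exact absurd ((hYm u' hu').2.1 hl) (Finset.disjoint_left.1 (hYm u hu).2.2 h)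
        · exact ⟨l, hA u (hYU hu) h, h, hl⟩
      have he := e2_le_labels Γ A T Y τ s hτ0 (fun u hu => (hUsm u (hYm u hu).1).2.2.le)
        (fun l hl => hτ l hl _ ((Finset.filter_subset _ _).trans hYU)
          (fun z hz => (Finset.mem_filter.1 hz).2))
        (by
          intro u hu u' hu' hadj
          rcases z2 u (hYm u hu).1 u' (hYm u' hu').1 hadj with h | h
          · exact hsh u hu u' hu' hadj h
          · obtain ⟨l, h1, h2, h3⟩ := hsh u' hu' u hu hadj.symm h
            exact ⟨l, h1, h3, h2⟩)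
        (fun u hu => hA u (hYU hu))
      have ht := turan_bound Γ Y i (fun I hI => hi I (hI.trans hYU))
      have h3 : (∑ u ∈ Y, ((Y.filter (fun w => Γ.Adj u w)).card : ℝ)) = e2 Γ Y := rfl
      rw [h3] at ht
      have hi0 : (0:ℝ) ≤ i := Nat.cast_nonneg i
      have h4 : (Y.card : ℝ) ^ 2 ≤ i * (τ * s * Y.card + Y.card) :=
        ht.trans (mul_le_mul_of_nonneg_left (by linarith) hi0)
      have h5 : (Y.card : ℝ) ≤ i * (τ * s + 1) := by
        rcases (Nat.cast_nonneg Y.card : (0:ℝ) ≤ Y.card).eq_or_lt with h | h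
        · rw [← h]; positivity
        · have h6 : (Y.card : ℝ) * Y.card ≤ Y.card * (i * (τ * s + 1)) := by nlinarith
          exact le_of_mul_le_mul_left h6 h
      have h7 : (Us.card : ℝ) ≤ 2 ^ (s + s * s) * Y.card := by exact_mod_cast hcount
      have h8 : (2 ^ (s + s * s) : ℝ) * Y.card ≤ 2 ^ (s + s * s) * (i * (τ * s + 1)) :=
        mul_le_mul_of_nonneg_left h5 (by positivity)
      linarith

end Pool.Agent.Helper44.Tri
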