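import Pool.Agent.Helper44.Tri.Rainbow

/-! # Spiders -/

set_option autoImplicit false
open Classical Finset

namespace Pool.Agent.Helper44.Tri

variable {X : Type} [Fintype X]

/-- a path of length `j` starting at `x`, with vertices in the sets `R k` -/
theorem exists_path (Γ : SimpleGraph X) (R : ℕ → Finset X) (n : ℕ)
    (hR : ∀ k, ∀ x ∈ R k, n ≤ dg Γ (R (k + 1)) x)
    (x : X) (hx : x ∈ R 0) (B : Finset X) (j : ℕ) (hj : B.card + j ≤ n) :
    ∃ p : ℕ → X, p 0 = x ∧ (∀ k, 1 ≤ k → k ≤ j → p k ∈ R k ∧ p k ∉ B) ∧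
      (∀ k, k < j → Γ.Adj (p k) (p (k + 1))) ∧
      ∀ k l, 1 ≤ k → k ≤ j → 1 ≤ l → l ≤ j → p k = p l → k = l := by
  induction j with
  | zero =>
    exact ⟨fun _ => x, rfl, fun k h1 h2 => absurd h2 (by omega), fun k h => absurd h (by omega),
      fun k l h1 h2 => absurd h2 (by omega)⟩
  | succ j ih =>
    obtain ⟨p, p0, p1, p2, p3⟩ := ih (by omega)
    have hpj : p j ∈ R j := by
      by_cases h : j = 0
      · rw [h, p0]; exact hx
      · exact (p1 j (by omega) le_rfl).1
    set B' : Finset X := B ∪ (Finset.Icc 1 j).image p with hB'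
    have hB'c : B'.card ≤ B.card + j := by
      refine (Finset.card_union_le _ _).trans (Nat.add_le_add_left ?_ _)
      refine Finset.card_image_le.trans ?_
      simp
    have h1 : ¬ (R (j + 1)).filter (fun w => Γ.Adj (p j) w) ⊆ B' := by
      intro hsub
      have h2 := Finset.card_le_card hsub
      have h3 := hR j (p j) hpj
      unfold dg at h3
      omega
    obtain ⟨z, hz, hzB⟩ := Finset.not_subset.1 h1
    rw [Finset.mem_filter] at hz
    have hzB1 : z ∉ B := fun h => hzB (Finset.mem_union_left _ h)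
    have hzp : ∀ k, 1 ≤ k → k ≤ j → p k ≠ z := by
      intro k hk1 hk2 h
      exact hzB (Finset.mem_union_right _ (Finset.mem_image.2 ⟨k, Finset.mem_Icc.2 ⟨hk1, hk2⟩, h⟩))
    refine ⟨fun k => if k = j + 1 then z else p k, ?_, ?_, ?_, ?_⟩
    · show (if 0 = j + 1 then z else p 0) = x
      rw [if_neg (by omega), p0]
    · intro k hk1 hk2
      show (if k = j + 1 then z else p k) ∈ R k ∧ (if k = j + 1 then z else p k) ∉ B
      by_cases h : k = j + 1
      · rw [if_pos h, h]; exact ⟨hz.1, hzB1⟩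
      · rw [if_neg h]; exact p1 k hk1 (by omega)
    · intro k hk
      show Γ.Adj (if k = j + 1 then z else p k) (if k + 1 = j + 1 then z else p (k + 1))
      rw [if_neg (by omega)]
      by_cases h : k = j
      · rw [if_pos (by omega), h]; exact hz.2
      · rw [if_neg (by omega)]; exact p2 k (by omega)
    · intro k l hk1 hk2 hl1 hl2 h
      have h' : (if k = j + 1 then z else p k) = (if l = j + 1 then z else p l) := h
      by_cases h1 : k = j + 1 <;> by_cases h2 : l = j + 1
      · rw [h1, h2]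
      · rw [if_pos h1, if_neg h2] at h'
        exact absurd h'.symm (hzp l hl1 (by omega))
      · rw [if_neg h1, if_pos h2] at h'
        exact absurd h' (hzp k hk1 (by omega))
      · rw [if_neg h1, if_neg h2] at h'
        exact p3 k l hk1 (by omega) hl1 (by omega) h'

/-- a spider with `t` legs of length `j` and centre `x`, avoiding `B` -/
theorem exists_spider (Γ : SimpleGraph X) (R : ℕ → Finset X) (n : ℕ)
    (hR : ∀ k, ∀ x ∈ R k, n ≤ dg Γ (R (k + 1)) x)
    (x : X) (hx : x ∈ R 0) (j : ℕ) (t : ℕ) : ∀ (B : Finset X), B.card + t * j ≤ n →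
    ∃ a : ℕ → ℕ → X, (∀ l, a l 0 = x) ∧
      (∀ l, l < t → ∀ k, 1 ≤ k → k ≤ j → a l k ∈ R k ∧ a l k ∉ B) ∧
      (∀ l, l < t → ∀ k, k < j → Γ.Adj (a l k) (a l (k + 1))) ∧
      ∀ l l' k k', l < t → l' < t → 1 ≤ k → k ≤ j → 1 ≤ k' → k' ≤ j → a l k = a l' k' →
        l = l' ∧ k = k' := by
  induction t with
  | zero =>
    intro B _
    exact ⟨fun _ _ => x, fun _ => rfl, fun l h => absurd h (by omega), fun l h => absurd h (by omega),
      fun l l' k k' h => absurd h (by omega)⟩
  | succ t ih =>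
    intro B hB
    have e1 : (t + 1) * j = t * j + j := by ring
    obtain ⟨p, p0, p1, p2, p3⟩ := exists_path Γ R n hR x hx B j (by omega)
    set B' : Finset X := B ∪ (Finset.Icc 1 j).image p with hB'
    have hB'c : B'.card ≤ B.card + j := by
      refine (Finset.card_union_le _ _).trans (Nat.add_le_add_left ?_ _)
      refine Finset.card_image_le.trans ?_
      simp
    obtain ⟨a, a0, a1, a2, a3⟩ := ih B' (by omega)
    have hap : ∀ l, l < t → ∀ k, 1 ≤ k → k ≤ j → ∀ k', 1 ≤ k' → k' ≤ j → a l k ≠ p k' := by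
      intro l hl k hk1 hk2 k' hk1' hk2' h
      refine (a1 l hl k hk1 hk2).2 (Finset.mem_union_right _ ?_)
      exact Finset.mem_image.2 ⟨k', Finset.mem_Icc.2 ⟨hk1', hk2'⟩, h.symm⟩
    refine ⟨fun l k => if l = t then p k else a l k, ?_, ?_, ?_, ?_⟩
    · intro l
      show (if l = t then p 0 else a l 0) = x
      by_cases h : l = t
      · rw [if_pos h, p0]
      · rw [if_neg h, a0]
    · intro l hl k hk1 hk2
      show (if l = t then p k else a l k) ∈ R k ∧ (if l = t then p k else a l k) ∉ B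
      by_cases h : l = t
      · rw [if_pos h]; exact p1 k hk1 hk2
      · rw [if_neg h]
        have := a1 l (by omega) k hk1 hk2
        exact ⟨this.1, fun h' => this.2 (Finset.mem_union_left _ h')⟩
    · intro l hl k hk
      show Γ.Adj (if l = t then p k else a l k) (if l = t then p (k + 1) else a l (k + 1))
      by_cases h : l = t
      · rw [if_pos h, if_pos h]; exact p2 k hk
      · rw [if_neg h, if_neg h]; exact a2 l (by omega) k hk
    · intro l l' k k' hl hl' hk1 hk2 hk1' hk2' h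
      have h' : (if l = t then p k else a l k) = (if l' = t then p k' else a l' k') := h
      by_cases h1 : l = t <;> by_cases h2 : l' = t
      · rw [if_pos h1, if_pos h2] at h'
        exact ⟨h1.trans h2.symm, p3 k k' hk1 hk2 hk1' hk2' h'⟩
      · rw [if_pos h1, if_neg h2] at h'
        exact absurd h'.symm (hap l' (by omega) k' hk1' hk2' k hk1 hk2)
      · rw [if_neg h1, if_pos h2] at h'
        exact absurd h' (hap l (by omega) k hk1 hk2 k' hk1' hk2')
      · rw [if_neg h1, if_neg h2] at h'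
        exact a3 l l' k k' (by omega) (by omega) hk1 hk2 hk1' hk2' h'

/-- The environment: `S` is a set of vertices with the largest average degree `D`, and `R` is a set
of neighbours of `c` in `S` with the largest average degree `τ`. -/
structure Env (Γ : SimpleGraph X) (S R : Finset X) (c : X) (i s : ℕ) (D τ : ℝ) : Prop where
  s0 : 0 < s
  i0 : 0 < i
  degS : ∀ x ∈ S, D ≤ 2 * dg Γ S x
  indS : ∀ I ⊆ S, (∀ a ∈ I, ∀ b ∈ I, ¬ Γ.Adj a b) → I.card < i
  cS : c ∈ S
  RS : R ⊆ S
  Rne : R.Nonempty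
  Radj : ∀ x ∈ R, Γ.Adj c x
  degR : ∀ x ∈ R, τ ≤ 2 * dg Γ R x
  nb : ∀ a ∈ S, ∀ Z ⊆ S, (∀ z ∈ Z, Γ.Adj a z) → e2 Γ Z ≤ τ * Z.card
  tauD : τ ≤ D
  Dtau : D ≤ 2 * i * (τ + 1)
  big : (1024 * s ^ 3 * 2 ^ (s + s * s) : ℝ) * i ≤ D

theorem Env.ipos {Γ : SimpleGraph X} {S R : Finset X} {c : X} {i s : ℕ} {D τ : ℝ}
    (h : Env Γ S R c i s D τ) : (0:ℝ) < i := by exact_mod_cast h.i0

theorem Env.spos {Γ : SimpleGraph X} {S R : Finset X} {c : X} {i s : ℕ} {D τ : ℝ}
    (h : Env Γ S R c i s D τ) : (1:ℝ) ≤ s := by exact_mod_cast h.s0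

theorem Env.tau_big {Γ : SimpleGraph X} {S R : Finset X} {c : X} {i s : ℕ} {D τ : ℝ}
    (h : Env Γ S R c i s D τ) : (512 * s ^ 3 * 2 ^ (s + s * s) : ℝ) ≤ τ + 1 := by
  have h1 := h.Dtau
  have h2 := h.big
  have h3 := h.ipos
  have h4 : (i : ℝ) * (512 * s ^ 3 * 2 ^ (s + s * s)) ≤ i * (τ + 1) := by nlinarith
  exact le_of_mul_le_mul_left h4 h3

theorem pow_one_le (s : ℕ) : (1:ℝ) ≤ 2 ^ (s + s * s) := one_le_pow₀ (by norm_num)

end Pool.Agent.Helper44.Tri
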