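import Pool.Agent.Helper44.Tri.Cyc
import Pool.Agent.Helper44.Tri.MainT

/-! # Graphs which are unicyclic around a vertex -/

set_option autoImplicit false
open Classical SimpleGraph

namespace Pool.Agent.Helper44.Tri
open Pool.Agent.Helper14.Rsl (RSL)

variable {V : Type}

/-- a graph on two vertices has no cycles -/
theorem acyclic_pair (G : SimpleGraph V) (a b : V) :
    (G.induce ({a, b} : Set V)).IsAcyclic := by
  intro u w hw
  have hn := hw.three_le_length
  have hne : ∀ k l, k ≤ 2 → l ≤ 2 → w.getVert k = w.getVert l → k = l := fun k l hk hl h =>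
    hw.getVert_injOn' (show k ≤ w.length - 1 by omega) (show l ≤ w.length - 1 by omega) h
  have hm : ∀ k, (w.getVert k : V) = a ∨ (w.getVert k : V) = b := fun k => (w.getVert k).2
  have e : ∀ k l, (w.getVert k : V) = (w.getVert l : V) → w.getVert k = w.getVert l :=
    fun k l h => Subtype.ext h
  rcases hm 0 with h0 | h0 <;> rcases hm 1 with h1 | h1 <;> rcases hm 2 with h2 | h2
  · have := hne 0 1 (by omega) (by omega) (e 0 1 (h0.trans h1.symm)); omega
  · have := hne 0 1 (by omega) (by omega) (e 0 1 (h0.trans h1.symm)); omega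
  · have := hne 0 2 (by omega) (by omega) (e 0 2 (h0.trans h2.symm)); omega
  · have := hne 1 2 (by omega) (by omega) (e 1 2 (h1.trans h2.symm)); omega
  · have := hne 1 2 (by omega) (by omega) (e 1 2 (h1.trans h2.symm)); omega
  · have := hne 0 2 (by omega) (by omega) (e 0 2 (h0.trans h2.symm)); omega
  · have := hne 0 1 (by omega) (by omega) (e 0 1 (h0.trans h1.symm)); omega
  · have := hne 0 1 (by omega) (by omega) (e 0 1 (h0.trans h1.symm)); omega

/-- the invariant of the construction; `H` is the graph without the edges at `c` -/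
structure Inv (G H : SimpleGraph V) (c : V) (P B : Set V) : Prop where
  grown : Grown G c P B
  con : ∀ a ∈ P, ∀ b ∈ P, a ≠ c → b ≠ c → H.Reachable a b →
    ∃ p : H.Walk a b, ∀ v ∈ p.support, v ∈ P
  cyc : ∀ u (w : H.Walk u u), w.IsCycle → ∀ x ∈ P, x ≠ c → H.Reachable x u →
    ∀ v ∈ w.support, v ∈ P
  cl : ∀ v ∈ P, v ≠ c → v ∈ B ∨ ∀ w, G.Adj v w → w ∈ P

/-- a new vertex has at most one old neighbour -/
theorem Inv.uniq {G H : SimpleGraph V} {c : V} (hH : ∀ a b, H.Adj a b ↔ G.Adj a b ∧ a ≠ c ∧ b ≠ c)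
    {P B : Set V} (h : Inv G H c P B) {v x x' : V} (hv : v ∉ P) (hx : x ∈ P) (hx' : x' ∈ P)
    (h1 : H.Adj v x) (h2 : H.Adj v x') : x = x' := by
  by_contra hne
  have hr : H.Reachable x x' := h1.symm.reachable.trans h2.reachable
  obtain ⟨p, hp⟩ := h.con x hx x' hx' ((hH v x).1 h1).2.2 ((hH v x').1 h2).2.2 hr
  have hpb : ∀ z ∈ p.bypass.support, z ∈ P := fun z hz =>
    hp z (p.support_bypass_subset_support hz)
  have hq : (Walk.cons h1 (p.bypass.concat h2.symm)).IsCycle := by
    rw [Walk.cons_isCycle_iff]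
    constructor
    · rw [Walk.concat_isPath_iff]
      exact ⟨p.bypass_isPath, fun hmem => hv (hpb v hmem)⟩
    · rw [Walk.edges_concat, List.concat_eq_append, List.mem_append]
      rintro (h3 | h3)
      · exact hv (hpb v (Walk.fst_mem_support_of_mem_edges _ h3))
      · rw [List.mem_singleton, Sym2.eq_iff] at h3
        rcases h3 with ⟨h3, h4⟩ | ⟨h3, h4⟩
        · exact hv (h3 ▸ hx')
        · exact hne h4
  exact hv (h.cyc v _ hq x hx ((hH v x).1 h1).2.2 h1.symm.reachable v (Walk.start_mem_support _))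

/-- adding a vertex next to an old one -/
theorem Inv.red {G H : SimpleGraph V} {c : V} (hH : ∀ a b, H.Adj a b ↔ G.Adj a b ∧ a ≠ c ∧ b ≠ c)
    {P B : Set V} (h : Inv G H c P B) {v x : V} (hv : v ∉ P) (hx : x ∈ P)
    (hxv : H.Adj x v) : Inv G H c (insert v P) (insert v B) := by
  have hxc : x ≠ c := ((hH x v).1 hxv).2.1
  have hvc : v ≠ c := ((hH x v).1 hxv).2.2
  have hxB : x ∈ B := (h.cl x hx hxc).resolve_right (fun h' => hv (h' v ((hH x v).1 hxv).1))
  refine ⟨Grown.red P B v x h.grown hv (Or.inl hxB) ?_, ?_, ?_, ?_⟩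
  · intro w hw hvw
    by_cases hwc : w = c
    · exact Or.inl hwc
    · exact Or.inr (h.uniq hH hv hw hx ((hH v w).2 ⟨hvw, hvc, hwc⟩) hxv.symm)
  · rintro a (ha | ha) b (hb | hb) hac hbc hr
    · subst ha; subst hb
      refine ⟨Walk.nil, fun z hz => ?_⟩
      rw [Walk.support_nil, List.mem_singleton] at hz
      exact Or.inl hz
    · subst ha
      obtain ⟨p, hp⟩ := h.con x hx b hb hxc hbc (hxv.reachable.trans hr)
      refine ⟨Walk.cons hxv.symm p, fun z hz => ?_⟩
      rw [Walk.support_cons, List.mem_cons] at hz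
      rcases hz with hz | hz
      · exact Or.inl hz
      · exact Or.inr (hp z hz)
    · subst hb
      obtain ⟨p, hp⟩ := h.con a ha x hx hac hxc (hr.trans hxv.symm.reachable)
      refine ⟨p.concat hxv, fun z hz => ?_⟩
      rw [Walk.support_concat, List.mem_append, List.mem_singleton] at hz
      rcases hz with hz | hz
      · exact Or.inr (hp z hz)
      · exact Or.inl hz
    · obtain ⟨p, hp⟩ := h.con a ha b hb hac hbc hr
      exact ⟨p, fun z hz => Or.inr (hp z hz)⟩
  · rintro u w hw y (hy | hy) hyc hr z hz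
    · rw [hy] at hr
      exact Or.inr (h.cyc u w hw x hx hxc (hxv.reachable.trans hr) z hz)
    · exact Or.inr (h.cyc u w hw y hy hyc hr z hz)
  · rintro y (hy | hy) hyc
    · exact Or.inl (Or.inl hy)
    · rcases h.cl y hy hyc with h' | h'
      · exact Or.inl (Or.inr h')
      · exact Or.inr (fun w hw => Or.inr (h' w hw))

/-- nothing leaves a closed set -/
theorem closed_reach {G H : SimpleGraph V} {c : V}
    (hH : ∀ a b, H.Adj a b ↔ G.Adj a b ∧ a ≠ c ∧ b ≠ c) {P : Set V}
    (hcl : ∀ x ∈ P, x ≠ c → ∀ w, G.Adj x w → w ∈ P) {x y : V} (hx : x ∈ P) (hxc : x ≠ c)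
    (hr : H.Reachable x y) : y ∈ P := by
  obtain ⟨p⟩ := hr
  induction p with
  | nil => exact hx
  | cons hadj p ih =>
    exact ih (hcl _ hx hxc _ ((hH _ _).1 hadj).1) ((hH _ _).1 hadj).2.2

/-- adding the first vertex of a tree -/
theorem Inv.root {G H : SimpleGraph V} {c : V}
    (hH : ∀ a b, H.Adj a b ↔ G.Adj a b ∧ a ≠ c ∧ b ≠ c) {P B : Set V} (h : Inv G H c P B)
    (hcl : ∀ x ∈ P, x ≠ c → ∀ w, G.Adj x w → w ∈ P) {v : V} (hv : v ∉ P)
    (hno : ∀ u (w : H.Walk u u), w.IsCycle → ¬ H.Reachable v u) :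
    Inv G H c (insert v P) (insert v B) := by
  refine ⟨Grown.red P B v c h.grown hv (Or.inr rfl) ?_, ?_, ?_, ?_⟩
  · intro w hw hvw
    by_cases hwc : w = c
    · exact Or.inl hwc
    · exact absurd (hcl w hw hwc v hvw.symm) hv
  · rintro a (ha | ha) b (hb | hb) hac hbc hr
    · subst ha; subst hb
      refine ⟨Walk.nil, fun z hz => ?_⟩
      rw [Walk.support_nil, List.mem_singleton] at hz
      exact Or.inl hz
    · subst ha
      exact absurd (closed_reach hH hcl hb hbc hr.symm) hv
    · subst hb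
      exact absurd (closed_reach hH hcl ha hac hr) hv
    · obtain ⟨p, hp⟩ := h.con a ha b hb hac hbc hr
      exact ⟨p, fun z hz => Or.inr (hp z hz)⟩
  · rintro u w hw y (hy | hy) hyc hr z hz
    · rw [hy] at hr
      exact absurd hr (hno u w hw)
    · exact Or.inr (h.cyc u w hw y hy hyc hr z hz)
  · rintro y (hy | hy) hyc
    · exact Or.inl (Or.inl hy)
    · rcases h.cl y hy hyc with h' | h'
      · exact Or.inl (Or.inr h')
      · exact Or.inr (fun w hw => Or.inr (h' w hw))

/-- adding an odd cycle with two adjacent vertices of degree two -/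
theorem grown_cycle {G H : SimpleGraph V} {c : V}
    (hH : ∀ a b, H.Adj a b ↔ G.Adj a b ∧ a ≠ c ∧ b ≠ c) {P B : Set V} (hg : Grown G c P B)
    (hcl : ∀ x ∈ P, x ≠ c → ∀ w, G.Adj x w → w ∈ P) {u : V} (w : H.Walk u u) (hw : w.IsCycle)
    (huniq : ∀ u' (w' : H.Walk u' u'), w'.IsCycle → H.Reachable u' u →
      ∀ e ∈ w'.edges, e ∈ w.edges) (hodd : Odd w.length) {a b : V} (ha : a ∈ w.support)
    (hab : G.Adj a b) (da : (G.neighborSet a).encard = 2)
    (db : (G.neighborSet b).encard = 2) (hwP : ∀ x ∈ w.support, x ∉ P) :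
    ∃ B2, Grown G c (P ∪ {x | x ∈ w.support}) B2 ∧ B ⊆ B2 ∧
      ∀ x ∈ w.support, x ∈ B2 ∨ ∀ y, G.Adj x y → y ∈ w.support := by
  have hHG : ∀ x y, H.Adj x y → G.Adj x y := fun x y h => ((hH x y).1 h).1
  obtain ⟨j, v, v1, v2, v3, v4, v5, v6, v7⟩ := cycle_data hHG w hw hodd ha hab da db
  have hcP : c ∈ P := hg.basic.1
  have hvs : ∀ k, k ≤ 2 * j + 2 → v k ∈ w.support := fun k hk => (v4 (v k)).2 ⟨k, hk, rfl⟩
  have hvP : ∀ k, k ≤ 2 * j + 2 → v k ∉ P := fun k hk => hwP _ (hvs k hk)
  have hvc : ∀ k, k ≤ 2 * j + 2 → v k ≠ c := fun k hk h => hvP k hk (h ▸ hcP)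
  have hGP : ∀ k, k ≤ 2 * j + 2 → ∀ z ∈ P, G.Adj (v k) z → z = c := by
    intro k hk z hz hadj
    by_contra hzc
    exact hvP k hk (hcl z hz hzc _ hadj.symm)
  have hch : ∀ k l, k < l → l ≤ 2 * j + 2 → G.Adj (v k) (v l) →
      l = k + 1 ∨ (k = 0 ∧ l = 2 * j + 2) := by
    intro k l hkl hl hadj
    refine v7 k l hkl hl (chord w hw huniq (hvs k (by omega)) (hvs l hl) ?_)
    exact (hH _ _).2 ⟨hadj, hvc k (by omega), hvc l hl⟩
  have hg1 : Grown G c (insert (v (j + 1)) P) (insert (v (j + 1)) B) :=
    Grown.red P B (v (j + 1)) c hg (hvP _ (by omega)) (Or.inr rfl)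
      (fun z hz hadj => Or.inl (hGP (j + 1) (by omega) z hz hadj))
  have hne : ∀ k l, k ≤ 2 * j + 2 → l ≤ 2 * j + 2 → k ≠ l → v k ≠ v l := fun k l hk hl h h' =>
    h (v3 k l hk hl h')
  have hPL : Disjoint (insert (v (j + 1)) P) {v 0, v (2 * j + 2)} := by
    rw [Set.disjoint_left]
    rintro z (hz | hz) (hz' | hz')
    · exact hne 0 (j + 1) (by omega) (by omega) (by omega) (hz'.symm.trans hz)
    · exact hne (2 * j + 2) (j + 1) (by omega) (by omega) (by omega) (hz'.symm.trans hz)
    · exact hvP 0 (by omega) (hz' ▸ hz)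
    · exact hvP (2 * j + 2) (by omega) (hz' ▸ hz)
  by_cases hj : j = 0
  · subst hj
    refine ⟨insert (v (0 + 1)) B, ?_, Set.subset_insert _ _, ?_⟩
    · have h2 := Grown.fan _ _ {v 0, v (2 * 0 + 2)} (v (0 + 1)) hg1 (Or.inl rfl) hPL
        (acyclic_pair G _ _) (by
          rintro z (hz | hz) y hy hadj
          · rw [hz] at hadj
            rcases v5 y hadj with h | h
            · exact h
            · exact absurd (Or.inr h) (Set.disjoint_left.1 hPL hy)
          · have hz' : z = v (2 * 0 + 2) := hz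
            rw [hz'] at hadj
            rcases v6 y hadj with h | h
            · exact h
            · exact absurd (Or.inl h) (Set.disjoint_left.1 hPL hy))
      have he : insert (v (0 + 1)) P ∪ {v 0, v (2 * 0 + 2)} = P ∪ {x | x ∈ w.support} := by
        ext z
        constructor
        · rintro ((hz | hz) | (hz | hz))
          · exact Or.inr (hz ▸ hvs _ (by omega))
          · exact Or.inl hz
          · exact Or.inr (hz ▸ hvs 0 (by omega))
          · have hz' : z = v (2 * 0 + 2) := hz
            exact Or.inr (hz' ▸ hvs _ (by omega))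
        · rintro (hz | hz)
          · exact Or.inl (Or.inr hz)
          · obtain ⟨k, hk, hz⟩ := (v4 z).1 hz
            have hk3 : k = 0 ∨ k = 1 ∨ k = 2 := by omega
            rcases hk3 with h | h | h
            · exact Or.inr (Or.inl (by rw [hz, h]))
            · exact Or.inl (Or.inl (by rw [hz, h]))
            · refine Or.inr (Or.inr ?_)
              rw [hz, h]
              exact Set.mem_singleton _
      rw [← he]
      exact h2
    · intro x hx
      obtain ⟨k, hk, hz⟩ := (v4 x).1 hx
      have hk3 : k = 0 ∨ k = 1 ∨ k = 2 := by omega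
      rcases hk3 with h | h | h
      · right
        intro y hy
        rw [hz, h] at hy
        rcases v5 y hy with h' | h'
        · exact h' ▸ hvs 1 (by omega)
        · exact h' ▸ hvs _ (by omega)
      · left
        exact Or.inl (by rw [hz, h])
      · right
        intro y hy
        rw [hz, h] at hy
        rcases v6 y hy with h' | h'
        · exact h' ▸ hvs _ (by omega)
        · exact h' ▸ hvs 0 (by omega)
  · have hj1 : 1 ≤ j := by omega
    set L : Set V := {v 0, v (2 * j + 2)} with hL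
    set y : V → ℕ → V := fun z k => if z = v 0 then v (j + 1 - k) else v (j + 1 + k) with hy
    have hy0 : ∀ k, y (v 0) k = v (j + 1 - k) := fun k => if_pos rfl
    have hne0 : v (2 * j + 2) ≠ v 0 := hne _ _ le_rfl (by omega) (by omega)
    have hy1 : ∀ k, y (v (2 * j + 2)) k = v (j + 1 + k) := fun k => if_neg hne0
    have hyk : ∀ z ∈ L, ∀ k, k ≤ j → ∃ m, 1 ≤ m ∧ m ≤ 2 * j + 1 ∧ y z k = v m ∧
        (1 ≤ k → m ≠ j + 1) := by
      rintro z (hz | hz) k hk
      · rw [hz, hy0]
        exact ⟨j + 1 - k, by omega, by omega, rfl, by omega⟩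
      · have hz' : z = v (2 * j + 2) := hz
        rw [hz', hy1]
        exact ⟨j + 1 + k, by omega, by omega, rfl, by omega⟩
    set Q : Set V := {z | ∃ u ∈ L, ∃ k, 1 ≤ k ∧ k ≤ j ∧ z = y u k} with hQ
    have hQm : ∀ z ∈ Q, ∃ m, 1 ≤ m ∧ m ≤ 2 * j + 1 ∧ z = v m ∧ m ≠ j + 1 := by
      rintro z ⟨u', hu', k, hk1, hk2, hz⟩
      obtain ⟨m, h1, h2, h3, h4⟩ := hyk u' hu' k hk2
      exact ⟨m, h1, h2, hz.trans h3, h4 hk1⟩
    have hmQ : ∀ m, 1 ≤ m → m ≤ 2 * j + 1 → m ≠ j + 1 → ∃ u' ∈ L, ∃ k, 1 ≤ k ∧ k ≤ j ∧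
        v m = y u' k := by
      intro m h1 h2 h3
      by_cases h : m ≤ j
      · refine ⟨v 0, Or.inl rfl, j + 1 - m, by omega, by omega, ?_⟩
        rw [hy0, show j + 1 - (j + 1 - m) = m by omega]
      · refine ⟨v (2 * j + 2), Or.inr rfl, m - (j + 1), by omega, by omega, ?_⟩
        rw [hy1, show j + 1 + (m - (j + 1)) = m by omega]
    have hPQ : Disjoint (insert (v (j + 1)) P ∪ L) Q := by
      rw [Set.disjoint_left]
      intro z hz hzQ
      obtain ⟨m, h1, h2, h3, h4⟩ := hQm z hzQ
      rcases hz with (hz | hz) | (hz | hz)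
      · exact hne m (j + 1) (by omega) (by omega) h4 (h3.symm.trans hz)
      · exact hvP m (by omega) (h3 ▸ hz)
      · exact hne m 0 (by omega) (by omega) (by omega) (h3.symm.trans hz)
      · have hz' : z = v (2 * j + 2) := hz
        exact hne m (2 * j + 2) (by omega) (by omega) (by omega) (h3.symm.trans hz')
    -- old vertices and path vertices
    have hw' : ∀ z ∈ insert (v (j + 1)) P ∪ Q, z ∈ P ∨ ∃ m, 1 ≤ m ∧ m ≤ 2 * j + 1 ∧ z = v m := by
      rintro z ((hz | hz) | hz)
      · exact Or.inr ⟨j + 1, by omega, by omega, hz⟩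
      · exact Or.inl hz
      · obtain ⟨m, h1, h2, h3, _⟩ := hQm z hz
        exact Or.inr ⟨m, h1, h2, h3⟩
    have h2 := Grown.flower (insert (v (j + 1)) P) (insert (v (j + 1)) B) L L Q (v (j + 1)) j j y
      hg1 (Or.inl rfl) (fun _ => Or.inl rfl) hj1 hPL (acyclic_pair G _ _) (Set.Subset.refl _) hQ hPQ
      (by
        rintro z (hz | hz)
        · rw [hz, hy0]
          rfl
        · have hz' : z = v (2 * j + 2) := hz
          rw [hz', hy1])
      (by
        rintro z (hz | hz) z' (hz' | hz') k k' hk1 hk2 hk1' hk2' he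
        · rw [hz, hz', hy0, hy0] at he
          have := v3 _ _ (by omega) (by omega) he
          exact ⟨hz.trans hz'.symm, by omega⟩
        · have hz1 : z' = v (2 * j + 2) := hz'
          rw [hz, hz1, hy0, hy1] at he
          have := v3 _ _ (by omega) (by omega) he
          omega
        · have hz1 : z = v (2 * j + 2) := hz
          rw [hz1, hz', hy0, hy1] at he
          have := v3 _ _ (by omega) (by omega) he
          omega
        · have hz1 : z = v (2 * j + 2) := hz
          have hz2 : z' = v (2 * j + 2) := hz'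
          rw [hz1, hz2, hy1, hy1] at he
          have := v3 _ _ (by omega) (by omega) he
          exact ⟨hz1.trans hz2.symm, by omega⟩)
      (by
        rintro z (hz | hz) x hx hadj
        · refine ⟨Or.inl hz, ?_⟩
          rw [hz] at hadj
          rw [hz, hy0, show j + 1 - j = 1 by omega]
          rcases v5 x hadj with h | h
          · exact h
          · exfalso
            rcases hw' x hx with h' | ⟨m, h1, h2, h3⟩
            · exact hvP _ (by omega) (h ▸ h')
            · exact hne m (2 * j + 2) (by omega) (by omega) (by omega) (h3.symm.trans h)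
        · refine ⟨Or.inr hz, ?_⟩
          have hz' : z = v (2 * j + 2) := hz
          rw [hz'] at hadj
          rw [hz', hy1, show j + 1 + j = 2 * j + 1 by omega]
          rcases v6 x hadj with h | h
          · exact h
          · exfalso
            rcases hw' x hx with h' | ⟨m, h1, h2, h3⟩
            · exact hvP _ (by omega) (h ▸ h')
            · exact hne m 0 (by omega) (by omega) (by omega) (h3.symm.trans h))
      (by
        have key : ∀ p, 1 ≤ p → p ≤ 2 * j + 1 → ∀ x ∈ insert (v (j + 1)) P ∪ Q,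
            G.Adj (v p) x → x = c ∨ (2 ≤ p ∧ x = v (p - 1)) ∨ (p ≤ 2 * j ∧ x = v (p + 1)) := by
          intro p hp1 hp2 x hx hadj
          rcases hw' x hx with h' | ⟨m, h1, h2, h3⟩
          · exact Or.inl (hGP p (by omega) x h' hadj)
          · rw [h3] at hadj
            rcases lt_trichotomy p m with hlt | heq | hgt
            · rcases hch p m hlt (by omega) hadj with h | h
              · exact Or.inr (Or.inr ⟨by omega, by rw [h3, h]⟩)
              · omega
            · rw [heq] at hadj
              exact absurd hadj (G.loopless.irrefl _)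
            · rcases hch m p hgt (by omega) hadj.symm with h | h
              · refine Or.inr (Or.inl ⟨by omega, ?_⟩)
                rw [h3, h, show m + 1 - 1 = m by omega]
              · omega
        rintro z (hz | hz) k hk1 hk2 x hx hadj
        · rw [hz, hy0] at hadj
          rw [hz, hy0, hy0]
          rcases key (j + 1 - k) (by omega) (by omega) x hx hadj with h | h | h
          · exact Or.inl ⟨h, hk2⟩
          · refine Or.inr (Or.inr ⟨by omega, ?_⟩)
            rw [h.2, show j + 1 - k - 1 = j + 1 - (k + 1) by omega]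
          · refine Or.inr (Or.inl ?_)
            rw [h.2, show j + 1 - k + 1 = j + 1 - (k - 1) by omega]
        · have hz' : z = v (2 * j + 2) := hz
          rw [hz', hy1] at hadj
          rw [hz', hy1, hy1]
          rcases key (j + 1 + k) (by omega) (by omega) x hx hadj with h | h | h
          · exact Or.inl ⟨h, hk2⟩
          · refine Or.inr (Or.inl ?_)
            rw [h.2, show j + 1 + k - 1 = j + 1 + (k - 1) by omega]
          · refine Or.inr (Or.inr ⟨by omega, ?_⟩)
            rw [h.2, show j + 1 + k + 1 = j + 1 + (k + 1) by omega])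
    have he : insert (v (j + 1)) P ∪ L ∪ Q = P ∪ {x | x ∈ w.support} := by
      ext z
      constructor
      · rintro (((hz | hz) | (hz | hz)) | hz)
        · exact Or.inr (hz ▸ hvs _ (by omega))
        · exact Or.inl hz
        · exact Or.inr (hz ▸ hvs 0 (by omega))
        · have hz' : z = v (2 * j + 2) := hz
          exact Or.inr (hz' ▸ hvs _ (by omega))
        · obtain ⟨m, h1, h2, h3, _⟩ := hQm z hz
          exact Or.inr (h3 ▸ hvs m (by omega))
      · rintro (hz | hz)
        · exact Or.inl (Or.inl (Or.inr hz))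
        · obtain ⟨k, hk, hz⟩ := (v4 z).1 hz
          by_cases h1 : k = 0
          · exact Or.inl (Or.inr (Or.inl (h1 ▸ hz)))
          by_cases h2 : k = 2 * j + 2
          · exact Or.inl (Or.inr (Or.inr (h2 ▸ hz)))
          by_cases h3 : k = j + 1
          · exact Or.inl (Or.inl (Or.inl (h3 ▸ hz)))
          · obtain ⟨u', hu', k', hk1, hk2, hk3⟩ := hmQ k (by omega) (by omega) h3
            exact Or.inr ⟨u', hu', k', hk1, hk2, hz.trans hk3⟩
    rw [he] at h2
    refine ⟨_, h2, ?_, ?_⟩
    · intro z hz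
      exact Or.inl (Or.inr hz)
    · intro x hx
      obtain ⟨k, hk, hz⟩ := (v4 x).1 hx
      by_cases h1 : k = 0
      · right
        intro z hz'
        rw [hz, h1] at hz'
        rcases v5 z hz' with h' | h'
        · exact h' ▸ hvs 1 (by omega)
        · exact h' ▸ hvs _ (by omega)
      by_cases h2 : k = 2 * j + 2
      · right
        intro z hz'
        rw [hz, h2] at hz'
        rcases v6 z hz' with h' | h'
        · exact h' ▸ hvs _ (by omega)
        · exact h' ▸ hvs 0 (by omega)
      by_cases h3 : k = j + 1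
      · exact Or.inl (Or.inl (Or.inl (h3 ▸ hz)))
      · obtain ⟨u', hu', k', hk1, hk2, hk3⟩ := hmQ k (by omega) (by omega) h3
        exact Or.inl (Or.inr ⟨u', hu', k', hk1, hk2, hk2, hz.trans hk3⟩)

/-- adding the cycle of a component -/
theorem Inv.cycle {G H : SimpleGraph V} {c : V}
    (hH : ∀ a b, H.Adj a b ↔ G.Adj a b ∧ a ≠ c ∧ b ≠ c) {P B : Set V} (h : Inv G H c P B)
    (hcl : ∀ x ∈ P, x ≠ c → ∀ w, G.Adj x w → w ∈ P) {u : V} (w : H.Walk u u) (hw : w.IsCycle)
    (huniq : ∀ u' (w' : H.Walk u' u'), w'.IsCycle → H.Reachable u' u →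
      ∀ e ∈ w'.edges, e ∈ w.edges) (hodd : Odd w.length) {a b : V} (ha : a ∈ w.support)
    (hab : G.Adj a b) (da : (G.neighborSet a).encard = 2)
    (db : (G.neighborSet b).encard = 2) (hwP : ∀ x ∈ w.support, x ∉ P) :
    ∃ B2, Inv G H c (P ∪ {x | x ∈ w.support}) B2 := by
  obtain ⟨B2, g1, g2, g3⟩ := grown_cycle hH h.grown hcl w hw huniq hodd ha hab da db hwP
  have hreach : ∀ x ∈ w.support, H.Reachable x u := fun x hx => (w.takeUntil x hx).reachable.symm
  refine ⟨B2, g1, ?_, ?_, ?_⟩
  · rintro x (hx | hx) y (hy | hy) hxc hyc hr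
    · obtain ⟨p, hp⟩ := h.con x hx y hy hxc hyc hr
      exact ⟨p, fun z hz => Or.inl (hp z hz)⟩
    · exact absurd (closed_reach hH hcl hx hxc hr) (hwP y hy)
    · exact absurd (closed_reach hH hcl hy hyc hr.symm) (hwP x hx)
    · obtain ⟨p, hp⟩ := walk_in_cycle w hx hy
      exact ⟨p, fun z hz => Or.inr (hp z hz)⟩
  · rintro u' w' hw' x (hx | hx) hxc hr z hz
    · exact Or.inl (h.cyc u' w' hw' x hx hxc hr z hz)
    · right
      have hr' : H.Reachable u' u := hr.symm.trans (hreach x hx)
      have hn := hw'.three_le_length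
      rw [Walk.mem_support_iff_exists_mem_edges] at hz
      have hedge : ∃ e ∈ w'.edges, z ∈ e := by
        rcases hz with hz | hz
        · refine ⟨s(w'.getVert 0, w'.getVert 1), ?_, ?_⟩
          · rw [Walk.mk_mem_edges_iff_exists]
            exact ⟨0, by omega, rfl⟩
          · rw [Walk.getVert_zero, hz]
            exact Sym2.mem_mk_left _ _
        · exact hz
      obtain ⟨e, he, hze⟩ := hedge
      exact Walk.mem_support_of_mem_edges (huniq u' w' hw' hr' e he) hze
  · rintro x (hx | hx) hxc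
    · rcases h.cl x hx hxc with h' | h'
      · exact Or.inl (g2 h')
      · exact Or.inr (fun z hz => Or.inl (h' z hz))
    · rcases g3 x hx with h' | h'
      · exact Or.inl h'
      · exact Or.inr (fun z hz => Or.inr (h' z hz))

/-- The graphs of the corollary are grown around `c`. -/
theorem uni_grown [Fintype V] (G : SimpleGraph V) (c : V)
    (h1 : ∀ u (w : (G.deleteIncidenceSet c).Walk u u), w.IsCycle → Odd w.length ∧
      ∃ a ∈ w.support, ∃ b ∈ w.support, G.Adj a b ∧ (G.neighborSet a).encard = 2 ∧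
        (G.neighborSet b).encard = 2)
    (h2 : ∀ u u' (w : (G.deleteIncidenceSet c).Walk u u) (w' : (G.deleteIncidenceSet c).Walk u' u'),
      w.IsCycle → w'.IsCycle → (G.deleteIncidenceSet c).Reachable u u' →
      ∀ e ∈ w.edges, e ∈ w'.edges) : ∃ B, Grown G c Set.univ B := by
  set H := G.deleteIncidenceSet c with hHdef
  have hH : ∀ a b, H.Adj a b ↔ G.Adj a b ∧ a ≠ c ∧ b ≠ c := fun a b =>
    SimpleGraph.deleteIncidenceSet_adj
  have step : ∀ (P B : Set V), Inv G H c P B → P ≠ Set.univ →
      ∃ P' B', Inv G H c P' B' ∧ P ⊂ P' := by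
    intro P B h hP
    obtain ⟨v, hv⟩ := (Set.ne_univ_iff_exists_notMem P).1 hP
    by_cases hcl : ∀ x ∈ P, x ≠ c → ∀ w, G.Adj x w → w ∈ P
    · by_cases hno : ∀ u (w : H.Walk u u), w.IsCycle → ¬ H.Reachable v u
      · exact ⟨_, _, h.root hH hcl hv hno, Set.ssubset_insert hv⟩
      · push Not at hno
        obtain ⟨u, w, hw, hr⟩ := hno
        obtain ⟨hodd, a, ha, b, hb, hab, da, db⟩ := h1 u w hw
        have hwP : ∀ x ∈ w.support, x ∉ P := by
          intro x hx hxP
          have hxu : H.Reachable u x := (w.takeUntil x hx).reachable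
          have hxc : x ≠ c := by
            intro hxc
            have hn := hw.three_le_length
            obtain ⟨k, hk, hkl⟩ := Walk.mem_support_iff_exists_getVert.1 hx
            by_cases hk' : k < w.length
            · have := Walk.adj_getVert_succ w hk'
              rw [hk] at this
              exact ((hH _ _).1 this).2.1 hxc
            · have h3 := Walk.adj_getVert_succ w (i := k - 1) (by omega)
              rw [show k - 1 + 1 = k by omega, hk] at h3
              exact ((hH _ _).1 h3).2.2 hxc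
          exact hv (closed_reach hH hcl hxP hxc (hr.trans hxu).symm)
        obtain ⟨B2, hB2⟩ := h.cycle hH hcl w hw
          (fun u' w' hw' hr' => h2 u' u w' w hw' hw hr') hodd ha hab da db hwP
        refine ⟨_, B2, hB2, ?_⟩
        rw [Set.ssubset_iff_of_subset Set.subset_union_left]
        exact ⟨u, Or.inr (Walk.start_mem_support w), hwP u (Walk.start_mem_support w)⟩
    · push Not at hcl
      obtain ⟨x, hx, hxc, y, hxy, hy⟩ := hcl
      have hyc : y ≠ c := fun h' => hy (h' ▸ h.grown.basic.1)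
      exact ⟨_, _, h.red hH hy hx ((hH x y).2 ⟨hxy, hxc, hyc⟩), Set.ssubset_insert hy⟩
  have main : ∀ n : ℕ, ∀ (P B : Set V), Inv G H c P B → Pᶜ.ncard ≤ n → ∃ B', Grown G c Set.univ B' := by
    intro n
    induction n with
    | zero =>
      intro P B h hn
      have hP : P = Set.univ := by
        by_contra hP
        obtain ⟨v, hv⟩ := (Set.ne_univ_iff_exists_notMem P).1 hP
        have : 0 < Pᶜ.ncard := (Set.ncard_pos (Set.toFinite _)).2 ⟨v, hv⟩
        omega
      exact ⟨B, hP ▸ h.grown⟩
    | succ n ih =>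
      intro P B h hn
      by_cases hP : P = Set.univ
      · exact ⟨B, hP ▸ h.grown⟩
      · obtain ⟨P', B', h', hss⟩ := step P B h hP
        refine ih P' B' h' ?_
        have : P'ᶜ.ncard < Pᶜ.ncard :=
          Set.ncard_lt_ncard (compl_lt_compl_iff_lt.2 hss) (Set.toFinite _)
        omega
  refine main _ {c} ∅ ⟨Grown.start, ?_, ?_, ?_⟩ le_rfl
  · intro a ha b _ hac
    exact absurd ha hac
  · intro u w _ x hx hxc
    exact absurd hx hxc
  · intro v hv hvc
    exact absurd hv hvc

/-- The corollary. -/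
theorem uni_rsl [Fintype V] (G : SimpleGraph V) (c : V)
    (h1 : ∀ u (w : (G.deleteIncidenceSet c).Walk u u), w.IsCycle → Odd w.length ∧
      ∃ a ∈ w.support, ∃ b ∈ w.support, G.Adj a b ∧ (G.neighborSet a).encard = 2 ∧
        (G.neighborSet b).encard = 2)
    (h2 : ∀ u u' (w : (G.deleteIncidenceSet c).Walk u u) (w' : (G.deleteIncidenceSet c).Walk u' u'),
      w.IsCycle → w'.IsCycle → (G.deleteIncidenceSet c).Reachable u u' →
      ∀ e ∈ w.edges, e ∈ w'.edges) : RSL G := by
  obtain ⟨B, hB⟩ := uni_grown G c h1 h2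
  exact hB.rsl

end Pool.Agent.Helper44.Tri
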